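import Mathlib
import Pool.Agent.K9h23.Mix.Lc

/-!
Partial sums of dyadic decompositions.
-/

set_option autoImplicit false

open Set Complex Metric Filter Topology
open scoped Real

namespace Pool.Agent.K9h23.Din

open Pool.Agent.K9h23.Hom Pool.Agent.K9h23.Bnd

variable {m : ℕ}

/-- the radial estimate -/
theorem rad {D : ℕ} (hD : 1 ≤ D) {R : E m → ℂ} (h : Gr 0 D R) {b : ℝ} (hb0 : 0 ≤ b)
    (hb : ∀ z, ‖z‖ ≤ 1 → ‖R z‖ ≤ b) {z : E m} (hz : ‖z‖ ≤ 1) {r : ℝ} (hr0 : 0 ≤ r) (hr1 : r ≤ 1) :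
    ‖R z - R ((r : ℂ) • z)‖ ≤ 12 * b * Real.sqrt (D * (1 - r)) := by
  rcases eq_or_ne z 0 with h0 | h0
  · rw [h0, smul_zero, sub_self, norm_zero]
    positivity
  have hz0 : 0 < ‖z‖ := norm_pos_iff.2 h0
  set ζ : E m := ((‖z‖ : ℂ))⁻¹ • z with hζ
  have hzc : (‖z‖ : ℂ) ≠ 0 := by exact_mod_cast hz0.ne'
  have hζ1 : ‖ζ‖ = 1 := by
    rw [hζ, norm_smul, norm_inv, Complex.norm_real, norm_norm, inv_mul_cancel₀ hz0.ne']
  have hzζ : (‖z‖ : ℂ) • ζ = z := by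
    rw [hζ, smul_smul, mul_inv_cancel₀ hzc, one_smul]
  have h1 : Gr 0 D (fun w => R ((‖z‖ : ℂ) • w)) := by
    obtain ⟨c, hc, hR⟩ := h
    refine ⟨fun k w => (‖z‖ : ℂ) ^ k * c k w, fun k => (hc k).smul _, fun w => ?_⟩
    beta_reduce
    rw [hR]
    exact Finset.sum_congr rfl fun k _ => (hc k).h _ _
  have h2 := Gr.lip hD h1 hb0 (fun w hw => hb _ (by
    rw [norm_smul, Complex.norm_real, norm_norm]
    exact mul_le_one₀ hz (norm_nonneg _) hw)) hζ1 (z := (r : ℂ) • ζ) (by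
      rw [norm_smul, hζ1, mul_one, Complex.norm_real, Real.norm_of_nonneg hr0]; exact hr1)
  have e1 : (‖z‖ : ℂ) • (r : ℂ) • ζ = (r : ℂ) • z := by
    rw [smul_comm, hzζ]
  beta_reduce at h2
  rw [e1, hzζ, norm_sub_rev] at h2
  have e2 : ‖1 - (inner ℂ ζ ((r : ℂ) • ζ) : ℂ)‖ = 1 - r := by
    rw [inner_smul_right, inner_self_eq_norm_sq_to_K, hζ1]
    have : (1 : ℂ) - (r : ℂ) * ((1 : ℝ) : ℂ) ^ 2 = ((1 - r : ℝ) : ℂ) := by push_cast; ring
    have h3 : ‖(1 : ℂ) - (r : ℂ) * ((1 : ℝ) : ℂ) ^ 2‖ = 1 - r := by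
      rw [this, Complex.norm_real, Real.norm_of_nonneg (by linarith)]
    exact h3
  rwa [e2] at h2

theorem geo_sqrt (i : ℕ) : ∑ t ∈ Finset.range i, Real.sqrt (2 ^ t) ≤ 3 * Real.sqrt (2 ^ i) := by
  induction i with
  | zero => simp
  | succ i ih =>
    rw [Finset.sum_range_succ]
    have h1 : Real.sqrt (2 ^ (i + 1)) = Real.sqrt 2 * Real.sqrt (2 ^ i) := by
      rw [pow_succ, mul_comm, Real.sqrt_mul (by norm_num)]
    have h2 : (4 / 3 : ℝ) ≤ Real.sqrt 2 := Real.le_sqrt_of_sq_le (by norm_num)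
    rw [h1]
    have h3 := Real.sqrt_nonneg ((2:ℝ) ^ i)
    nlinarith

/-- the radius -/
noncomputable def rr (a i L0 : ℕ) : ℝ := 1 - 1 / (a * (2 ^ i * L0))

/-- **Partial sums.** -/
theorem par {K B0 M L0 : ℕ} (hK : 1 ≤ K) (hM1 : 1 ≤ M) (hL0 : 1 ≤ L0) (hM : M ≤ B0 * L0)
    {b σ : ℝ} {F : ℕ → E m → ℂ} {Q : ℕ → E m → ℂ} {f : E m → ℂ} (hb : 0 ≤ b) (hσ : 0 ≤ σ)
    (hF0 : Gr 0 M (F 0)) (hFb : ∀ z, ‖z‖ ≤ 1 → ‖F 0 z‖ ≤ b)
    (hQ : ∀ t, Gr (2 ^ t * L0) (K * (2 ^ t * L0)) (Q t))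
    (hQs : ∀ t z, ‖z‖ ≤ 1 → ‖Q t z‖ ≤ σ)
    (hF : ∀ t z, F (t + 1) z = F t z + Q t z)
    (hlim : ∀ z, ‖z‖ < 1 → Tendsto (fun t => F t z) atTop (𝓝 (f z)))
    {a : ℕ} (ha : 1 ≤ a) (i : ℕ) {z : E m} (hz : ‖z‖ ≤ 1) :
    ‖((rr a i L0 : ℝ) : ℂ) • z‖ < 1 ∧
    ‖F i z - f (((rr a i L0 : ℝ) : ℂ) • z)‖ ≤ 12 * b * Real.sqrt (B0 / a) + 36 * σ * Real.sqrt (K / a) + σ * (a + 1) := by
  have ha0 : (0:ℝ) < a := by exact_mod_cast ha
  have hL00 : (0:ℝ) < L0 := by exact_mod_cast hL0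
  have hp0 : (0:ℝ) < 2 ^ i := by positivity
  have hL1 : (1:ℝ) ≤ L0 := by exact_mod_cast hL0
  have ha1 : (1:ℝ) ≤ a := by exact_mod_cast ha
  have hp1 : (1:ℝ) ≤ 2 ^ i := one_le_pow₀ (by norm_num)
  set Y : ℝ := a * (2 ^ i * L0) with hY
  have hY1 : 1 ≤ Y := by
    rw [hY]
    exact one_le_mul_of_one_le_of_one_le ha1 (one_le_mul_of_one_le_of_one_le hp1 hL1)
  have hY0 : 0 < Y := by linarith
  have hr : rr a i L0 = 1 - 1 / Y := rfl
  set r : ℝ := rr a i L0 with hrr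
  have hYi : 1 / Y ≤ 1 := by rw [div_le_one hY0]; exact hY1
  have hYp : 0 < 1 / Y := by positivity
  have hr0 : 0 ≤ r := by rw [hr]; linarith
  have hr1 : r < 1 := by rw [hr]; linarith
  have hr' : 1 - r = 1 / Y := by rw [hr]; ring
  set w : E m := (r : ℂ) • z with hw
  have hwn : ‖w‖ ≤ r := by
    rw [hw, norm_smul, Complex.norm_real, Real.norm_of_nonneg hr0]
    exact mul_le_of_le_one_right hr0 hz
  refine ⟨hwn.trans_lt hr1, ?_⟩
  -- the radial difference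
  have hdiff : ∀ i', i' ≤ i → ‖F i' z - F i' w‖ ≤ 12 * b * Real.sqrt (B0 / a) +
      12 * σ * Real.sqrt (K * L0 * (1 / Y)) * ∑ t ∈ Finset.range i', Real.sqrt (2 ^ t) := by
    intro i' hi'
    induction i' with
    | zero =>
      simp only [Finset.range_zero, Finset.sum_empty, mul_zero, add_zero]
      refine (rad hM1 hF0 hb hFb hz hr0 hr1.le).trans ?_
      refine mul_le_mul_of_nonneg_left (Real.sqrt_le_sqrt ?_) (by positivity)
      rw [hr', mul_one_div, div_le_div_iff₀ hY0 ha0, hY]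
      have h1 : (M:ℝ) ≤ B0 * L0 := by exact_mod_cast hM
      have h2 : (M:ℝ) * a ≤ B0 * L0 * a := mul_le_mul_of_nonneg_right h1 ha0.le
      have h3 : (B0:ℝ) * L0 * a ≤ (B0 * L0 * a) * 2 ^ i :=
        le_mul_of_one_le_right (by positivity) hp1
      calc (M:ℝ) * a ≤ (B0 * L0 * a) * 2 ^ i := h2.trans h3
        _ = _ := by ring
    | succ i' ih =>
      have h1 := ih (by omega)
      have hD : 1 ≤ K * (2 ^ i' * L0) := Nat.mul_pos hK (Nat.mul_pos (by positivity) hL0)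
      have h2 := rad hD ((hQ i').mono (Nat.zero_le _) le_rfl) hσ (hQs i') hz hr0 hr1.le
      rw [hr', ← hw] at h2
      have h3 : Real.sqrt (((K * (2 ^ i' * L0) : ℕ) : ℝ) * (1 / Y)) =
          Real.sqrt (K * L0 * (1 / Y)) * Real.sqrt (2 ^ i') := by
        rw [← Real.sqrt_mul (by positivity)]
        congr 1
        push_cast
        ring
      rw [h3] at h2
      have e : F (i' + 1) z - F (i' + 1) w = (F i' z - F i' w) + (Q i' z - Q i' w) := by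
        rw [hF, hF]; ring
      rw [e, Finset.sum_range_succ, mul_add]
      refine (norm_add_le _ _).trans ?_
      linarith
  have h1 : ‖F i z - F i w‖ ≤ 12 * b * Real.sqrt (B0 / a) + 36 * σ * Real.sqrt (K / a) := by
    refine (hdiff i le_rfl).trans ?_
    have h2 : 12 * σ * Real.sqrt (K * L0 * (1 / Y)) * ∑ t ∈ Finset.range i, Real.sqrt (2 ^ t) ≤
        12 * σ * Real.sqrt (K * L0 * (1 / Y)) * (3 * Real.sqrt (2 ^ i)) :=
      mul_le_mul_of_nonneg_left (geo_sqrt i) (by positivity)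
    have h3 : Real.sqrt (K * L0 * (1 / Y)) * Real.sqrt (2 ^ i) = Real.sqrt (K / a) := by
      rw [← Real.sqrt_mul (by positivity)]
      congr 1
      rw [hY]
      field_simp
    have h4 : 12 * σ * Real.sqrt (K * L0 * (1 / Y)) * (3 * Real.sqrt (2 ^ i)) =
        36 * σ * (Real.sqrt (K * L0 * (1 / Y)) * Real.sqrt (2 ^ i)) := by ring
    rw [h4, h3] at h2
    linarith
  -- the tail
  set θ : ℝ := r ^ (2 ^ i * L0) with hθ
  have hθ0 : 0 ≤ θ := by positivity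
  have hθ1 : θ * (1 + 1 / a) ≤ 1 := by
    have h2 : (r * (1 + 1 / Y)) ≤ 1 := by
      have : r * (1 + 1 / Y) = 1 - (1 / Y) ^ 2 := by rw [hr]; ring
      rw [this]
      nlinarith [sq_nonneg (1 / Y)]
    have h3 : 1 + ((2 ^ i * L0 : ℕ) : ℝ) * (1 / Y) ≤ (1 + 1 / Y) ^ (2 ^ i * L0) :=
      one_add_mul_le_pow (by linarith) _
    have h4 : ((2 ^ i * L0 : ℕ) : ℝ) * (1 / Y) = 1 / a := by
      rw [hY]
      push_cast
      field_simp
    rw [h4] at h3
    calc θ * (1 + 1 / a) ≤ θ * (1 + 1 / Y) ^ (2 ^ i * L0) := mul_le_mul_of_nonneg_left h3 hθ0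
      _ = (r * (1 + 1 / Y)) ^ (2 ^ i * L0) := by rw [hθ, mul_pow]
      _ ≤ 1 := pow_le_one₀ (by positivity) h2
  have hθ2 : 1 ≤ (a + 1) * (1 - θ) := by
    have h2 : θ * (a + 1) ≤ a := by
      have h3 : θ * (1 + 1 / a) * a ≤ 1 * a := mul_le_mul_of_nonneg_right hθ1 ha0.le
      have h4 : θ * (1 + 1 / a) * a = θ * (a + 1) := by field_simp
      linarith
    linarith
  have hQw : ∀ j, ‖Q (i + j) w‖ ≤ σ * θ ^ j := by
    intro j
    have h2 := (hQ (i + j)).schwarz (hQs (i + j)) (hwn.trans hr1.le)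
    refine h2.trans (mul_le_mul_of_nonneg_left ?_ hσ)
    rw [hθ, ← pow_mul]
    have h3 : (2 ^ i * L0) * j ≤ 2 ^ (i + j) * L0 := by
      have h4 : j ≤ 2 ^ j := Nat.lt_two_pow_self.le
      calc (2 ^ i * L0) * j ≤ (2 ^ i * L0) * 2 ^ j := Nat.mul_le_mul_left _ h4
        _ = 2 ^ (i + j) * L0 := by rw [pow_add]; ring
    calc ‖w‖ ^ (2 ^ (i + j) * L0) ≤ r ^ (2 ^ (i + j) * L0) :=
          pow_le_pow_left₀ (norm_nonneg _) hwn _
      _ ≤ _ := pow_le_pow_of_le_one hr0 hr1.le h3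
  have htail : ∀ J, ‖F i w - F (i + J) w‖ ≤ σ * (a + 1) := by
    intro J
    have h2 : ∀ J, ‖F i w - F (i + J) w‖ + σ * (a + 1) * θ ^ J ≤ σ * (a + 1) := by
      intro J
      induction J with
      | zero => simp
      | succ J ih =>
        have e : F i w - F (i + (J + 1)) w = (F i w - F (i + J) w) + -Q (i + J) w := by
          rw [← add_assoc, hF]; ring
        rw [e]
        have h3 := norm_add_le (F i w - F (i + J) w) (-Q (i + J) w)
        rw [norm_neg] at h3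
        have h4 := hQw J
        have h5 : 0 ≤ σ * θ ^ J := by positivity
        have h6 : σ * θ ^ J * 1 ≤ σ * θ ^ J * ((a + 1) * (1 - θ)) :=
          mul_le_mul_of_nonneg_left hθ2 h5
        have h7 : σ * (a + 1) * θ ^ (J + 1) = σ * (a + 1) * θ ^ J -
            σ * θ ^ J * ((a + 1) * (1 - θ)) := by ring
        rw [h7]
        linarith
    have h3 : 0 ≤ σ * (a + 1) * θ ^ J := by positivity
    linarith [h2 J]
  have h2 : ‖F i w - f w‖ ≤ σ * (a + 1) := by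
    have h3 := (hlim w (hwn.trans_lt hr1)).comp (tendsto_add_atTop_nat i)
    have h4 : Tendsto (fun J => ‖F i w - F (J + i) w‖) atTop (𝓝 ‖F i w - f w‖) :=
      (tendsto_const_nhds.sub h3).norm
    refine le_of_tendsto h4 (Eventually.of_forall fun J => ?_)
    rw [add_comm J i]
    exact htail J
  have e : F i z - f w = (F i z - F i w) + (F i w - f w) := by ring
  rw [e]
  refine (norm_add_le _ _).trans ?_
  linarith

end Pool.Agent.K9h23.Din
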