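import Mathlib
import Pool.Agent.K9h23.Mix.Qua

/-!
Small stages without gaps: holomorphic replacements of the pieces.
-/

set_option autoImplicit false

open MeasureTheory Set Complex Metric
open scoped Real

namespace Pool.Agent.K9h23.Din

open Pool.Agent.K9h23.Hom Pool.Agent.K9h23.Bnd Pool.Agent.K9h23.Mix
open Pool.Agent.K9h23.Lac (nsq nsq_nonneg nsq_c nn nn_nonneg nn_sq nn_add_le le_nsq nsq_smul' bd
  bd_le_nn comp_le_nn nsq_conj nn_le_comp xx EE UU th yh sg ww cc GG th_mem)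

variable {m N : ℕ} {A B : ℝ}

/-- the hypotheses of a small stage -/
structure Sr (A B s L : ℝ) (l u : ℕ) (F H Q : E m → Fin N → ℂ) : Prop where
  A4 : 4 ≤ A
  L0 : 0 ≤ L
  l2 : 2 ≤ l
  lu : l ≤ u
  Fl : ∀ j, Lc 2 L (fun z => F z j)
  Qg : ∀ j, Gr l u (fun z => Q z j)
  Fb : ∀ z, ‖z‖ ≤ 1 → 16 ≤ A * nsq (F z) ∧ nsq (F z) ≤ 4
  Qb : ∀ z, ‖z‖ ≤ 1 → nsq (Q z) * (100 * A ^ 2) ^ 2 ≤ 1
  Qs : ∀ z, ‖z‖ ≤ 1 → nn (Q z) ≤ s
  Hl : ∀ j, Lc B L (fun z => H z j)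
  Hb : ∀ z, ‖z‖ ≤ 1 → nn (H z) ≤ B

theorem Sr.mem {s L : ℝ} {l u : ℕ} {F H Q : E m → Fin N → ℂ} (S : Sr A B s L l u F H Q)
    {z z' : E m} (hz : ‖z‖ ≤ 1) (hz' : ‖z'‖ ≤ 1) : (F z, H z, Q z') ∈ TS N A B :=
  ⟨(S.Fb z hz).1, (S.Fb z hz).2, S.Hb z hz, S.Qb z' hz'⟩

theorem Sr.s0 {s L : ℝ} {l u : ℕ} {F H Q : E m → Fin N → ℂ} (S : Sr A B s L l u F H Q) :
    0 ≤ s := (nn_nonneg _).trans (S.Qs 0 (by simp))

/-- **The replacement.** -/
theorem quant1 (m N : ℕ) {A B : ℝ} {Ψ : (Fin N → ℂ) → (Fin N → ℂ) → (Fin N → ℂ) → ℂ}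
    (hΨ : Qz N A B Ψ) :
    ∃ b : ℝ, 0 ≤ b ∧ (∀ x ∈ TS N A B, ‖Ψ x.1 x.2.1 x.2.2‖ ≤ b) ∧
      (∀ x ∈ TS N A B, ∀ y ∈ TS N A B,
        ‖Ψ x.1 x.2.1 x.2.2 - Ψ y.1 y.2.1 y.2.2‖ ≤ b * dist x y) ∧
      ∃ C : ℝ, 0 ≤ C ∧ ∀ (s L : ℝ) (l u : ℕ) (F H Q : E m → Fin N → ℂ),
        Sr A B s L l u F H Q → ∃ R : E m → ℂ, Gr 0 (12 * u) R ∧
        ∀ z, ‖z‖ ≤ 1 → ‖R z - Ψ (F z) (H z) (Q z)‖ ≤ C * (s * (L / Real.sqrt l)) := by
  obtain ⟨b, hb, hb1, hb2⟩ := hΨ.bl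
  have hCT := CT_pos m
  refine ⟨b, hb, hb1, hb2, 4 * (CT m * 2 ^ (m + 1)) * (b * (100 * A ^ 2) * 2), by positivity,
    fun s L l u F H Q S => ?_⟩
  have hs0 := S.s0
  have hL0 := S.L0
  have hlu := S.lu
  have hl2 := S.l2
  have hl0 : (0:ℝ) < l := by exact_mod_cast (by omega : 0 < l)
  have hsl : 0 < Real.sqrt l := Real.sqrt_pos.2 hl0
  set a : ℕ := l / 2 with ha
  have ha1 : 1 ≤ a := by omega
  have ha2 : 2 * a ≤ l := by omega
  have ha3 : l ≤ 3 * a := by omega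
  have ha0 : (0:ℝ) < a := by exact_mod_cast ha1
  have hsa : 1 / Real.sqrt a ≤ 2 / Real.sqrt l := by
    rw [div_le_div_iff₀ (Real.sqrt_pos.2 ha0) hsl, one_mul]
    have h3 : (l:ℝ) ≤ 4 * a := by
      have : (l:ℝ) ≤ 3 * a := by exact_mod_cast ha3
      linarith
    have h4 : Real.sqrt (4 * a) = 2 * Real.sqrt a := by
      rw [Real.sqrt_mul (by norm_num)]
      congr 1
      rw [show (4:ℝ) = 2 ^ 2 by norm_num, Real.sqrt_sq (by norm_num)]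
    rw [← h4]
    exact Real.sqrt_le_sqrt h3
  obtain ⟨p, hp1, hp2⟩ := exists_dy (a := a) (u := u) ha1 (by omega)
  have haM : a ≤ 2 ^ p * a := Nat.le_mul_of_pos_left _ (by positivity)
  have hFm : ∀ j, Measurable (fun w => F w j) := fun j => (S.Fl j).meas
  have hQm : ∀ j, Measurable (fun w => Q w j) := fun j => (S.Qg j).diff.continuous.measurable
  have hHm : ∀ j, Measurable (fun w => H w j) := fun j => (S.Hl j).meas
  have hX : Bm b (fun w => Ψ (F w) (H w) (Q w)) :=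
    ⟨hΨ.ms hFm hHm hQm, fun w hw => hb1 _ (S.mem hw hw)⟩
  refine ⟨TO a (2 ^ p * a) (fun w => Ψ (F w) (H w) (Q w)), ?_, fun z hz => ?_⟩
  · exact (TO_gr (s := 0) ha1 haM hX fun k _ hk => absurd hk (Nat.not_lt_zero _)).mono le_rfl
      (by omega)
  have hY : Bm b (fun w => Ψ (F z) (H z) (Q w)) :=
    ⟨hΨ.ms (fun j => measurable_const) (fun j => measurable_const) hQm,
      fun w hw => hb1 _ (S.mem hz hw)⟩
  have h1 : TO a (2 ^ p * a) (fun w => Ψ (F w) (H w) (Q w)) z - Ψ (F z) (H z) (Q z) =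
      TO a (2 ^ p * a) (fun w => Ψ (F w) (H w) (Q w) - Ψ (F z) (H z) (Q w)) z := by
    have e1 : (fun w => Ψ (F w) (H w) (Q w) - Ψ (F z) (H z) (Q w)) =
        fun w => Ψ (F w) (H w) (Q w) + (-1) * Ψ (F z) (H z) (Q w) := by
      funext w; ring
    rw [e1, TO_add hX (hY.smul _) ha1 haM, TO_smul,
      TO_repr ha1 haM ha2 hp1 (hΨ.gr (F z) (H z) Q hlu S.Qg)]
    ring
  rw [h1]
  have hXY : Bm (b + b) (fun w => Ψ (F w) (H w) (Q w) - Ψ (F z) (H z) (Q w)) :=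
    ⟨hX.meas.sub hY.meas, fun w hw => (norm_sub_le _ _).trans
      (add_le_add (hX.bd w hw) (hY.bd w hw))⟩
  have h2 := TO_dy_bound ha1 p hXY (b1 := b * L * (100 * A ^ 2 * s))
    (by positivity) hz
    (fun v hv => by
      have hs0' : 0 ≤ L * Real.sqrt ‖1 - (inner ℂ v z : ℂ)‖ := by positivity
      have h4 := hΨ.schwarz S.A4 hb hb2 (S.mem hv.le hv.le) (S.mem hz hv.le)
        (ρ := L * Real.sqrt ‖1 - (inner ℂ v z : ℂ)‖)
        (by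
          refine pi_dist_le (by positivity) fun i => ?_
          exact (S.Fl i).lip v z hv hz)
        (by
          refine pi_dist_le (by positivity) fun i => ?_
          exact (S.Hl i).lip v z hv hz)
      refine h4.trans ?_
      calc b * (L * Real.sqrt ‖1 - (inner ℂ v z : ℂ)‖) *
            (100 * A ^ 2 * nn (Q v)) ≤
            b * (L * Real.sqrt ‖1 - (inner ℂ v z : ℂ)‖) *
            (100 * A ^ 2 * s) := by
            refine mul_le_mul_of_nonneg_left ?_ (by positivity)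
            exact mul_le_mul_of_nonneg_left (S.Qs v hv.le) (by positivity)
        _ = _ := by ring)
  refine h2.trans ?_
  rw [div_eq_mul_one_div (b * L * (100 * A ^ 2 * s))]
  calc 4 * (CT m * 2 ^ (m + 1)) * (b * L * (100 * A ^ 2 * s) *
        (1 / Real.sqrt a)) ≤
        4 * (CT m * 2 ^ (m + 1)) * (b * L * (100 * A ^ 2 * s) *
        (2 / Real.sqrt l)) := by
        refine mul_le_mul_of_nonneg_left (mul_le_mul_of_nonneg_left hsa (by positivity))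
          (by positivity)
    _ = _ := by ring


/-- the replacement of finitely many pieces -/
theorem quant_fam1 {ι : Type*} [Fintype ι] (m : ℕ) {N : ℕ}
    {Ψ : ι → (Fin N → ℂ) → (Fin N → ℂ) → (Fin N → ℂ) → ℂ} (hΨ : ∀ i, Qz N A B (Ψ i)) :
    ∃ b : ℝ, 0 ≤ b ∧ (∀ i, ∀ x ∈ TS N A B, ‖Ψ i x.1 x.2.1 x.2.2‖ ≤ b) ∧
      (∀ i, ∀ x ∈ TS N A B, ∀ y ∈ TS N A B,
        ‖Ψ i x.1 x.2.1 x.2.2 - Ψ i y.1 y.2.1 y.2.2‖ ≤ b * dist x y) ∧
      ∃ C : ℝ, 0 ≤ C ∧ ∀ (s L : ℝ) (l u : ℕ) (F H Q : E m → Fin N → ℂ),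
        Sr A B s L l u F H Q → ∃ R : ι → E m → ℂ, (∀ i, Gr 0 (12 * u) (R i)) ∧
        ∀ i z, ‖z‖ ≤ 1 → ‖R i z - Ψ i (F z) (H z) (Q z)‖ ≤
          C * (s * (L / Real.sqrt l)) := by
  choose b hb h1 h2 C hC h4 using fun i => quant1 m N (hΨ i)
  have hle : ∀ i, b i ≤ ∑ i, b i := fun i =>
    Finset.single_le_sum (f := b) (fun i _ => hb i) (Finset.mem_univ i)
  have hle2 : ∀ i, C i ≤ ∑ i, C i := fun i =>
    Finset.single_le_sum (f := C) (fun i _ => hC i) (Finset.mem_univ i)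
  refine ⟨∑ i, b i, Finset.sum_nonneg fun i _ => hb i, fun i x hx => (h1 i x hx).trans (hle i),
    fun i x hx y hy => (h2 i x hx y hy).trans (mul_le_mul_of_nonneg_right (hle i) dist_nonneg),
    ∑ i, C i, Finset.sum_nonneg fun i _ => hC i, fun s L l u F H Q S => ?_⟩
  have hs0 := S.s0
  have hL0 := S.L0
  choose R hR1 hR2 using fun i => h4 i s L l u F H Q S
  refine ⟨R, hR1, fun i z hz => (hR2 i z hz).trans
    (mul_le_mul_of_nonneg_right (hle2 i) (by positivity))⟩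

end Pool.Agent.K9h23.Din
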