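import Mathlib
import Pool.Agent.K9h23.Din.Qua
import Pool.Agent.K9h23.Mix.Sml

/-!
One small stage, with a sharp bound for the Lipschitz constant.
-/

set_option autoImplicit false

open MeasureTheory Set Complex Metric
open scoped Real

namespace Pool.Agent.K9h23.Din

open Pool.Agent.K9h23.Hom Pool.Agent.K9h23.Bnd Pool.Agent.K9h23.Mix
open Pool.Agent.K9h23.Lac (nsq nsq_nonneg nsq_c nn nn_nonneg nn_sq nn_add_le le_nsq nsq_smul' bd
  bd_le_nn comp_le_nn nsq_conj nn_le_comp xx EE UU th yh sg ww cc GG th_mem Adm GG_prop ww_le yh_le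
  xx_le bd_le)

variable {m N : ℕ} {A B : ℝ}

/-- **The small stage.** -/
theorem dstage (m N : ℕ) {A B X : ℝ} (hA : 4 ≤ A) (hB : 1 ≤ B) (hX : 0 ≤ X) : ∃ C : ℝ, 1 ≤ C ∧
    ∀ (s L : ℝ) (l u : ℕ) (F H Q : E m → Fin N → ℂ),
      Sr A B s L l u F H Q → (∀ z, ‖z‖ ≤ 1 → bd (F z) (H z) = 1) →
      L ≤ X * Real.sqrt l → C * s ≤ 1 → ∃ H' : E m → Fin N → ℂ,
      (∀ j, ∃ b', Lc b' ((1 + C * s) * L + C * (s * Real.sqrt u)) (fun z => H' z j)) ∧
      (∀ z, ‖z‖ ≤ 1 → bd (fun j => F z j + Q z j) (H' z) = 1) ∧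
      ∀ z, ‖z‖ ≤ 1 → ∀ j, ‖H' z j - GG A (F z) (H z) (Q z) j‖ ≤
          C * (s * (L / Real.sqrt l)) ∧
        ‖H' z j - H z j‖ ≤ C * (nn (Q z) + s * (L / Real.sqrt l)) := by
  have hA0 : 0 < A := by linarith
  have hN0 : (0:ℝ) ≤ N := Nat.cast_nonneg N
  obtain ⟨b0, hb0, hq1, hq2, C0, hC0, hq⟩ := quant_fam1 (A := A) (B := B)
    (ι := Fin N ⊕ (Fin N ⊕ (Fin N ⊕ (Unit ⊕ Unit)))) m (N := N)
    (Ψ := Sum.elim (p1 A) (Sum.elim (p2 A) (Sum.elim (fun j _ => p3 A j)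
      (Sum.elim (fun _ => pW) (fun _ => fun _ => pY A)))))
    (by
      rintro (j | j | j | _ | _)
      · exact Qz_p1 hA hB j
      · exact Qz_p2 hA hB j
      · exact Qz_p3 hA hB j
      · exact Qz_pW hA hB
      · exact Qz_pY hA hB)
  have hq21 : ∀ j, ∀ x ∈ TS N A B, ∀ y ∈ TS N A B,
      ‖p1 A j x.1 x.2.1 x.2.2 - p1 A j y.1 y.2.1 y.2.2‖ ≤ b0 * dist x y := fun j => hq2 (Sum.inl j)
  have hq22 : ∀ j, ∀ x ∈ TS N A B, ∀ y ∈ TS N A B,
      ‖p2 A j x.1 x.2.1 x.2.2 - p2 A j y.1 y.2.1 y.2.2‖ ≤ b0 * dist x y := fun j =>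
    hq2 (Sum.inr (Sum.inl j))
  have hq23 : ∀ j, ∀ x ∈ TS N A B, ∀ y ∈ TS N A B,
      ‖p3 A j x.2.1 x.2.2 - p3 A j y.2.1 y.2.2‖ ≤ b0 * dist x y := fun j =>
    hq2 (Sum.inr (Sum.inr (Sum.inl j)))
  have hq24 : ∀ x ∈ TS N A B, ∀ y ∈ TS N A B,
      ‖pW x.1 x.2.1 x.2.2 - pW y.1 y.2.1 y.2.2‖ ≤ b0 * dist x y :=
    hq2 (Sum.inr (Sum.inr (Sum.inr (Sum.inl ()))))
  have hq25 : ∀ x ∈ TS N A B, ∀ y ∈ TS N A B,
      ‖pY A x.2.1 x.2.2 - pY A y.2.1 y.2.2‖ ≤ b0 * dist x y :=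
    hq2 (Sum.inr (Sum.inr (Sum.inr (Sum.inr ()))))
  set β : ℝ := b0 + C0 * X + 1 with hβ
  have hCX : 0 ≤ C0 * X := by positivity
  have hβ1 : 1 ≤ β := by rw [hβ]; linarith
  have hβ0 : 0 ≤ β := by linarith
  set σ : ℝ := 12 * β * Real.sqrt 12 with hσ
  have hσ0 : 0 ≤ σ := by positivity
  set B1 : ℝ := B + 3 with hB1
  have hB10 : 0 ≤ B1 := by linarith
  set gb : ℝ := 18 * β + B1 with hgb
  have hgb0 : 0 ≤ gb := by positivity
  set gl : ℝ := 9 * β + 1 with hgl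
  have hgl0 : 0 ≤ gl := by positivity
  set gt : ℝ := 51 * σ + 12 * B1 with hgt
  have hgt0 : 0 ≤ gt := by positivity
  set κ : ℝ := 9 + 16 * b0 with hκ
  have hκ0 : 0 ≤ κ := by positivity
  set C : ℝ := 4 * β + 2 * N * gb + (4 * B1 * N * gl + 2 * N * gb) +
    (4 * B1 * N * gt + 34 * σ) + 6 * N * κ * C0 + (6 * N * B1 * κ + κ) * C0 + 5 * b0 with hC
  have t1 : 0 ≤ 2 * N * gb := by positivity
  have t2 : 0 ≤ 4 * B1 * N * gl + 2 * N * gb := by positivity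
  have t3 : 0 ≤ 4 * B1 * N * gt + 34 * σ := by positivity
  have t4 : 0 ≤ 6 * N * κ * C0 := by positivity
  have t5 : 0 ≤ (6 * N * B1 * κ + κ) * C0 := by positivity
  have hC1 : 1 ≤ C := by rw [hC]; linarith
  refine ⟨C, hC1, fun s L l u F H Q S hbd hLX hsm => ?_⟩
  obtain ⟨R, hRg, hRe⟩ := hq s L l u F H Q S
  have hs0 := S.s0
  have hL0 := S.L0
  have hlu := S.lu
  have hl2 := S.l2
  have hl0 : (0:ℝ) < l := by exact_mod_cast (by omega : 0 < l)
  have hsl : 0 < Real.sqrt l := Real.sqrt_pos.2 hl0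
  have hcs : ∀ {c : ℝ}, 0 ≤ c → c ≤ C → c * s ≤ 1 := fun {c} _ hc =>
    (mul_le_mul_of_nonneg_right hc hs0).trans hsm
  set η : ℝ := s * (L / Real.sqrt l) with hη
  have hη0 : 0 ≤ η := by positivity
  have hηX : η ≤ s * X := by
    refine mul_le_mul_of_nonneg_left ?_ hs0
    rw [div_le_iff₀ hsl]
    exact hLX
  set e : ℝ := C0 * η with he
  have he0 : 0 ≤ e := by positivity
  have heX : e ≤ C0 * X * s := by
    rw [he]
    calc C0 * η ≤ C0 * (s * X) := mul_le_mul_of_nonneg_left hηX hC0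
      _ = _ := by ring
  set τ : ℝ := β * s with hτ
  have hτ0 : 0 ≤ τ := by positivity
  have hτ4 : τ ≤ 1 / 4 := by
    have h1 := hcs (c := 4 * β) (by positivity) (by rw [hC]; linarith)
    rw [hτ]
    linarith
  have hs1 : s ≤ 1 := (le_mul_of_one_le_left hs0 hC1).trans hsm
  set R1 : Fin N → E m → ℂ := fun j => R (Sum.inl j) with hR1
  set R2 : Fin N → E m → ℂ := fun j => R (Sum.inr (Sum.inl j)) with hR2
  set R3 : Fin N → E m → ℂ := fun j => R (Sum.inr (Sum.inr (Sum.inl j))) with hR3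
  set RW : E m → ℂ := R (Sum.inr (Sum.inr (Sum.inr (Sum.inl ())))) with hRW
  set RY : E m → ℂ := R (Sum.inr (Sum.inr (Sum.inr (Sum.inr ())))) with hRY
  have e1 : ∀ j z, ‖z‖ ≤ 1 → ‖R1 j z - p1 A j (F z) (H z) (Q z)‖ ≤ e := fun j z hz =>
    hRe (Sum.inl j) z hz
  have e2 : ∀ j z, ‖z‖ ≤ 1 → ‖R2 j z - p2 A j (F z) (H z) (Q z)‖ ≤ e := fun j z hz =>
    hRe (Sum.inr (Sum.inl j)) z hz
  have e3 : ∀ j z, ‖z‖ ≤ 1 → ‖R3 j z - p3 A j (H z) (Q z)‖ ≤ e := fun j z hz =>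
    hRe (Sum.inr (Sum.inr (Sum.inl j))) z hz
  have eW : ∀ z, ‖z‖ ≤ 1 → ‖RW z - pW (F z) (H z) (Q z)‖ ≤ e := fun z hz =>
    hRe (Sum.inr (Sum.inr (Sum.inr (Sum.inl ())))) z hz
  have eY : ∀ z, ‖z‖ ≤ 1 → ‖RY z - pY A (H z) (Q z)‖ ≤ e := fun z hz =>
    hRe (Sum.inr (Sum.inr (Sum.inr (Sum.inr ())))) z hz
  -- the pieces are small
  have hmem : ∀ z, ‖z‖ ≤ 1 → (F z, H z, Q z) ∈ TS N A B := fun z hz => S.mem hz hz
  set v0 : Fin N → ℂ := fun _ => 0 with hv0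
  have hv00 : nsq v0 = 0 := by rw [hv0]; unfold nsq; simp
  have hm0 : ∀ z, ‖z‖ ≤ 1 → (F z, H z, v0) ∈ TS N A B := fun z hz =>
    ⟨(S.Fb z hz).1, (S.Fb z hz).2, S.Hb z hz, by
      change nsq v0 * (100 * A ^ 2) ^ 2 ≤ 1
      rw [hv00, zero_mul]; exact zero_le_one⟩
  have hx0 : ∀ z, xx (F z) v0 = 0 := fun z => by unfold xx; simp [hv0]
  have hy0 : ∀ z, bd (H z) v0 = 0 := fun z => by unfold bd; simp [hv0]
  have hE0 : EE A 0 - 1 = 0 := by unfold EE; simp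
  have hdist : ∀ z, dist ((F z, H z, Q z) : (Fin N → ℂ) × (Fin N → ℂ) × (Fin N → ℂ))
      (F z, H z, v0) ≤ nn (Q z) := by
    intro z
    refine max_le (by simp only [dist_self]; exact nn_nonneg _)
      (max_le (by simp only [dist_self]; exact nn_nonneg _) ?_)
    refine (dist_pi_le_iff (nn_nonneg _)).2 fun i => ?_
    change dist (Q z i) (v0 i) ≤ nn (Q z)
    rw [hv0]
    simp only
    rw [dist_zero_right]
    exact comp_le_nn _ _
  have n1 : ∀ j z, ‖z‖ ≤ 1 → ‖p1 A j (F z) (H z) (Q z)‖ ≤ b0 * nn (Q z) := by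
    intro j z hz
    have z1 : p1 A j (F z) (H z) v0 = 0 := by
      unfold p1; rw [hx0, hE0]; ring
    have := hq21 j (F z, H z, Q z) (hmem z hz) (F z, H z, v0) (hm0 z hz)
    simp only [z1, sub_zero] at this
    exact this.trans (mul_le_mul_of_nonneg_left (hdist z) hb0)
  have n2 : ∀ j z, ‖z‖ ≤ 1 → ‖p2 A j (F z) (H z) (Q z)‖ ≤ b0 * nn (Q z) := by
    intro j z hz
    have z1 : p2 A j (F z) (H z) v0 = 0 := by
      unfold p2; rw [hx0, hE0, hy0]; ring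
    have := hq22 j (F z, H z, Q z) (hmem z hz) (F z, H z, v0) (hm0 z hz)
    simp only [z1, sub_zero] at this
    exact this.trans (mul_le_mul_of_nonneg_left (hdist z) hb0)
  have n3 : ∀ j z, ‖z‖ ≤ 1 → ‖p3 A j (H z) (Q z)‖ ≤ b0 * nn (Q z) := by
    intro j z hz
    have z1 : p3 A j (H z) v0 = 0 := by
      unfold p3 yh; rw [hy0]; ring
    have := hq23 j (F z, H z, Q z) (hmem z hz) (F z, H z, v0) (hm0 z hz)
    simp only [z1, sub_zero] at this
    exact this.trans (mul_le_mul_of_nonneg_left (hdist z) hb0)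
  have nW : ∀ z, ‖z‖ ≤ 1 → ‖pW (F z) (H z) (Q z)‖ ≤ b0 * nn (Q z) := by
    intro z hz
    have z1 : pW (F z) (H z) v0 = 0 := by
      unfold pW ww; rw [hx0, hy0]; simp
    have := hq24 (F z, H z, Q z) (hmem z hz) (F z, H z, v0) (hm0 z hz)
    simp only [z1, sub_zero] at this
    exact this.trans (mul_le_mul_of_nonneg_left (hdist z) hb0)
  have nY : ∀ z, ‖z‖ ≤ 1 → ‖pY A (H z) (Q z)‖ ≤ b0 * nn (Q z) := by
    intro z hz
    have z1 : pY A (H z) v0 = 0 := by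
      unfold pY yh; rw [hy0]; simp
    have := hq25 (F z, H z, Q z) (hmem z hz) (F z, H z, v0) (hm0 z hz)
    simp only [z1, sub_zero] at this
    exact this.trans (mul_le_mul_of_nonneg_left (hdist z) hb0)
  have hQs : ∀ z, ‖z‖ ≤ 1 → b0 * nn (Q z) ≤ b0 * s := fun z hz =>
    mul_le_mul_of_nonneg_left (S.Qs z hz) hb0
  have hb0s : b0 * s ≤ 1 / 4 := by
    have : b0 * s ≤ τ := by rw [hτ]; exact mul_le_mul_of_nonneg_right (by rw [hβ]; linarith) hs0
    linarith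
  have hβe : e + b0 * s ≤ τ := by
    rw [hτ, hβ]
    have : (b0 + C0 * X + 1) * s = b0 * s + C0 * X * s + s := by ring
    rw [this]
    linarith
  have hb1 : ∀ j z, ‖z‖ ≤ 1 → ‖R1 j z‖ ≤ τ := fun j z hz =>
    (nb (e1 j z hz) ((n1 j z hz).trans (hQs z hz))).trans hβe
  have hb2 : ∀ j z, ‖z‖ ≤ 1 → ‖R2 j z‖ ≤ τ := fun j z hz =>
    (nb (e2 j z hz) ((n2 j z hz).trans (hQs z hz))).trans hβe
  have hb3 : ∀ j z, ‖z‖ ≤ 1 → ‖R3 j z‖ ≤ τ := fun j z hz =>
    (nb (e3 j z hz) ((n3 j z hz).trans (hQs z hz))).trans hβe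
  have hbW : ∀ z, ‖z‖ ≤ 1 → ‖RW z‖ ≤ τ := fun z hz =>
    (nb (eW z hz) ((nW z hz).trans (hQs z hz))).trans hβe
  have hbY : ∀ z, ‖z‖ ≤ 1 → ‖RY z‖ ≤ τ := fun z hz =>
    (nb (eY z hz) ((nY z hz).trans (hQs z hz))).trans hβe
  have dW : ∀ z, ‖z‖ ≤ 1 → 1 / 2 ≤ ‖1 - pW (F z) (H z) (Q z)‖ := by
    intro z hz
    have h1 := norm_sub_norm_le (1:ℂ) (pW (F z) (H z) (Q z))
    rw [norm_one] at h1
    have := (nW z hz).trans (hQs z hz)
    linarith
  have dY : ∀ z, ‖z‖ ≤ 1 → 1 / 2 ≤ ‖1 + pY A (H z) (Q z)‖ := by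
    intro z hz
    have h1 := norm_sub_norm_le (1:ℂ) (-pY A (H z) (Q z))
    rw [norm_one, norm_neg, sub_neg_eq_add] at h1
    have := (nY z hz).trans (hQs z hz)
    linarith
  have dRW : ∀ z, ‖z‖ ≤ 1 → 1 / 4 ≤ ‖1 - RW z‖ := by
    intro z hz
    have h1 := norm_sub_norm_le (1:ℂ) (RW z)
    rw [norm_one] at h1
    have := hbW z hz
    linarith
  have dRY : ∀ z, ‖z‖ ≤ 1 → 1 / 4 ≤ ‖1 + RY z‖ := by
    intro z hz
    have h1 := norm_sub_norm_le (1:ℂ) (-RY z)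
    rw [norm_one, norm_neg, sub_neg_eq_add] at h1
    have := hbY z hz
    linarith
  -- the Lipschitz constants
  have hu1 : 1 ≤ 12 * u := by omega
  set T : ℝ := s * Real.sqrt u with hT
  have hT0 : 0 ≤ T := by positivity
  have hs1' : 12 * τ * Real.sqrt ((12 * u : ℕ) : ℝ) = σ * T := by
    push_cast
    rw [Real.sqrt_mul (by norm_num), hσ, hτ, hT]
    ring
  set s1 : ℝ := σ * T with hs1d
  have hs10 : 0 ≤ s1 := by positivity
  have l1 : ∀ j, Lc τ s1 (R1 j) := fun j => by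
    have := Lc.of_gr hu1 (hRg _) hτ0 (hb1 j)
    rwa [hs1'] at this
  have l2 : ∀ j, Lc τ s1 (R2 j) := fun j => by
    have := Lc.of_gr hu1 (hRg _) hτ0 (hb2 j)
    rwa [hs1'] at this
  have l3 : ∀ j, Lc τ s1 (R3 j) := fun j => by
    have := Lc.of_gr hu1 (hRg _) hτ0 (hb3 j)
    rwa [hs1'] at this
  have lW : Lc τ s1 RW := by
    have := Lc.of_gr hu1 (hRg _) hτ0 hbW
    rwa [hs1'] at this
  have lY : Lc τ s1 RY := by
    have := Lc.of_gr hu1 (hRg _) hτ0 hbY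
    rwa [hs1'] at this
  have lWi : Lc 4 (16 * s1) (fun z => (1 - RW z)⁻¹) := by
    refine (((Lc.const (m := m) 1).sub lW).inv (c := 1 / 4) (by norm_num) dRW).mono ?_ ?_
    · norm_num
    · rw [zero_add]
      norm_num
      linarith
  have lYi : Lc 4 (16 * s1) (fun z => (1 + RY z)⁻¹) := by
    refine (((Lc.const (m := m) 1).add lY).inv (c := 1 / 4) (by norm_num) dRY).mono ?_ ?_
    · norm_num
    · rw [zero_add]
      norm_num
      linarith
  -- the first approximation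
  set Δ : E m → Fin N → ℂ := fun z j => R1 j z + R2 j z * (1 - RW z)⁻¹ -
    R3 j z * (1 + RY z)⁻¹ with hΔ
  set H1 : E m → Fin N → ℂ := fun z j => H z j + Δ z j with hH1
  have lΔ : ∀ j, Lc (9 * τ) (17 * s1) (fun z => Δ z j) := by
    intro j
    have h1 := ((l1 j).add ((l2 j).mul lWi)).sub ((l3 j).mul lYi)
    refine h1.mono (le_of_eq (by ring)) ?_
    have h2 : τ * s1 ≤ 1 / 4 * s1 := mul_le_mul_of_nonneg_right hτ4 hs10
    linarith
  have lH1 : ∀ j, Lc B1 (L + 17 * s1) (fun z => H1 z j) := by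
    intro j
    refine ((S.Hl j).add (lΔ j)).mono ?_ le_rfl
    rw [hB1]; linarith
  have hclose : ∀ z, ‖z‖ ≤ 1 → ∀ j, ‖H1 z j - GG A (F z) (H z) (Q z) j‖ ≤ κ * e := by
    intro z hz j
    rw [GG_split]
    have hpb : ∀ {x : ℂ}, ‖x‖ ≤ b0 * nn (Q z) → ‖x‖ ≤ b0 := fun {x} hx => by
      exact hx.trans (mul_le_of_le_one_right hb0 ((S.Qs z hz).trans hs1))
    have c1 := quot_close hb0 he0 (e2 j z hz) (y := 1 - RW z) (q := 1 - pW (F z) (H z) (Q z))
      (by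
        have h2 : 1 - RW z - (1 - pW (F z) (H z) (Q z)) = -(RW z - pW (F z) (H z) (Q z)) := by ring
        rw [h2, norm_neg]
        exact eW z hz) (hpb (n2 j z hz)) (dRW z hz) (dW z hz)
    have c2 := quot_close hb0 he0 (e3 j z hz) (y := 1 + RY z) (q := 1 + pY A (H z) (Q z))
      (by
        have h2 : 1 + RY z - (1 + pY A (H z) (Q z)) = RY z - pY A (H z) (Q z) := by ring
        rw [h2]
        exact eY z hz) (hpb (n3 j z hz)) (dRY z hz) (dY z hz)
    have e0 : H1 z j - (H z j + p1 A j (F z) (H z) (Q z) + p2 A j (F z) (H z) (Q z) *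
        (1 / (1 - pW (F z) (H z) (Q z))) - p3 A j (H z) (Q z) * (1 / (1 + pY A (H z) (Q z)))) =
        (R1 j z - p1 A j (F z) (H z) (Q z)) +
        (R2 j z * (1 - RW z)⁻¹ - p2 A j (F z) (H z) (Q z) * (1 / (1 - pW (F z) (H z) (Q z)))) -
        (R3 j z * (1 + RY z)⁻¹ - p3 A j (H z) (Q z) * (1 / (1 + pY A (H z) (Q z)))) := by
      rw [hH1, hΔ]
      ring
    rw [e0]
    refine (norm_sub_le _ _).trans ?_
    have h3 := norm_add_le (R1 j z - p1 A j (F z) (H z) (Q z)) (R2 j z * (1 - RW z)⁻¹ -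
      p2 A j (F z) (H z) (Q z) * (1 / (1 - pW (F z) (H z) (Q z))))
    have h4 := e1 j z hz
    have h5 : κ * e = e + (4 + 8 * b0) * e + (4 + 8 * b0) * e := by rw [hκ]; ring
    rw [h5]
    linarith
  -- the product
  have hFj : ∀ j z, ‖z‖ ≤ 1 → ‖F z j‖ ≤ 2 := fun j z hz => (S.Fl j).bd z hz
  have hGb : ∀ j z, ‖z‖ ≤ 1 → ‖F z j + Q z j‖ ≤ 3 := by
    intro j z hz
    have h1 := hFj j z hz
    have h2 : ‖Q z j‖ ≤ 1 := ((comp_le_nn _ j).trans (S.Qs z hz)).trans hs1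
    have := norm_add_le (F z j) (Q z j)
    linarith
  have lQ : ∀ j, Lc s (12 * T) (fun z => Q z j) := by
    intro j
    have h1 := Lc.of_gr (D := u) (by omega) ((S.Qg j).mono (Nat.zero_le _) le_rfl) hs0
      (fun z hz => (comp_le_nn (Q z) j).trans (S.Qs z hz))
    refine h1.mono le_rfl (le_of_eq ?_)
    rw [hT]; ring
  set G0 : E m → ℂ := fun z => ∑ j, (F z j * Δ z j + Q z j * H1 z j) with hG0d
  set G : E m → ℂ := fun z => 1 + G0 z with hG
  have lG0 : Lc (N * (gb * s)) (N * (gl * (s * L) + gt * T)) G0 := by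
    have h1 := Lc.sum Finset.univ (u := fun j z => F z j * Δ z j + Q z j * H1 z j)
      (b := gb * s) (L := gl * (s * L) + gt * T) (by positivity)
      fun j _ => (((S.Fl j).mul (lΔ j)).add ((lQ j).mul (lH1 j))).mono (by
        rw [hgb, hτ]; exact le_of_eq (by ring)) (by
        rw [hgl, hgt, hτ, hs1d]
        have a1 : s * (σ * T) ≤ σ * T := by
          exact mul_le_of_le_one_left (by positivity) hs1
        have a2 : 2 * (17 * (σ * T)) + 9 * (β * s) * L + (s * (L + 17 * (σ * T)) + B1 * (12 * T)) =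
          (9 * β + 1) * (s * L) + (34 * σ + 12 * B1) * T + 17 * (s * (σ * T)) := by ring
        rw [a2]
        have a3 : (51 * σ + 12 * B1) * T = (34 * σ + 12 * B1) * T + 17 * (σ * T) := by ring
        rw [a3]
        linarith)
    rwa [Finset.card_univ, Fintype.card_fin] at h1
  set x : ℝ := N * (gb * s) with hx
  have hx00 : 0 ≤ x := by positivity
  have hx2 : x ≤ 1 / 2 := by
    have h1 := hcs (c := 2 * N * gb) (by positivity) (by rw [hC]; linarith)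
    rw [hx]
    linarith
  have hGlow : ∀ z, ‖z‖ ≤ 1 → 1 - x ≤ ‖G z‖ := by
    intro z hz
    have h1 := norm_sub_norm_le (1:ℂ) (-G0 z)
    rw [norm_one, norm_neg, sub_neg_eq_add] at h1
    have := lG0.bd z hz
    rw [hG]
    linarith
  have hG2 : ∀ z, ‖z‖ ≤ 1 → 1 / 2 ≤ ‖G z‖ := fun z hz => by linarith [hGlow z hz]
  have lG : Lc (‖(1:ℂ)‖ + x) (0 + N * (gl * (s * L) + gt * T)) G := (Lc.const (m := m) 1).add lG0
  have hx1 : 0 < 1 - x := by linarith
  have lGi := lG.inv (c := 1 - x) hx1 hGlow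
  have hGe : ∀ z, ‖z‖ ≤ 1 → G z = ∑ j, (F z j + Q z j) * H1 z j := by
    intro z hz
    have h1 := hbd z hz
    rw [hG, hG0d]
    beta_reduce
    rw [← h1]
    unfold bd
    rw [← Finset.sum_add_distrib]
    refine Finset.sum_congr rfl fun j _ => ?_
    rw [hH1]
    ring
  have hAdm : ∀ z, ‖z‖ ≤ 1 → Adm A (F z) (Q z) := fun z hz =>
    ⟨hA, (S.Fb z hz).1, (S.Fb z hz).2, S.Qb z hz⟩
  have hG1 : ∀ z, ‖z‖ ≤ 1 → ‖G z - 1‖ ≤ 3 * N * κ * e := by
    intro z hz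
    have h1 : bd (fun j => F z j + Q z j) (GG A (F z) (H z) (Q z)) = 1 :=
      (GG_prop (hAdm z hz) (hbd z hz)).1
    have h2 : G z - 1 = ∑ j, (F z j + Q z j) * (H1 z j - GG A (F z) (H z) (Q z) j) := by
      rw [← h1, hGe z hz]
      unfold bd
      rw [← Finset.sum_sub_distrib]
      exact Finset.sum_congr rfl fun j _ => by ring
    rw [h2]
    refine (norm_sum_le _ _).trans ?_
    refine (Finset.sum_le_card_nsmul _ _ (3 * (κ * e)) fun j _ => ?_).trans (le_of_eq ?_)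
    · rw [norm_mul]
      exact mul_le_mul (hGb j z hz) (hclose z hz j) (norm_nonneg _) (by norm_num)
    · rw [nsmul_eq_mul, Finset.card_univ, Fintype.card_fin]
      ring
  have hG0 : ∀ z, ‖z‖ ≤ 1 → G z ≠ 0 := fun z hz => norm_pos_iff.1 (by linarith [hG2 z hz])
  -- the result
  have hfin : ∀ z, ‖z‖ ≤ 1 → ∀ j, ‖H1 z j * (G z)⁻¹ - GG A (F z) (H z) (Q z) j‖ ≤
      (6 * N * B1 * κ + κ) * e := by
    intro z hz j
    have h0 := hG0 z hz
    have h1 : H1 z j * (G z)⁻¹ - GG A (F z) (H z) (Q z) j =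
        H1 z j * (-(G z - 1) / G z) + (H1 z j - GG A (F z) (H z) (Q z) j) := by
      field_simp
      ring
    rw [h1]
    refine (norm_add_le _ _).trans ?_
    have h2 : ‖H1 z j * (-(G z - 1) / G z)‖ ≤ B1 * (6 * N * κ * e) := by
      rw [norm_mul]
      refine mul_le_mul ((lH1 j).bd z hz) ?_ (norm_nonneg _) hB10
      rw [norm_div, norm_neg, div_le_iff₀ (by linarith [hG2 z hz])]
      have h3 := hG1 z hz
      have h4 := hG2 z hz
      have h5 : 0 ≤ 6 * N * κ * e := by positivity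
      have h6 := mul_le_mul_of_nonneg_left h4 h5
      linarith
    have h3 := hclose z hz j
    calc _ ≤ B1 * (6 * N * κ * e) + κ * e := add_le_add h2 h3
      _ = _ := by ring
  refine ⟨fun z j => H1 z j * (G z)⁻¹, fun j => ⟨_, ((lH1 j).mul lGi).mono le_rfl ?_⟩,
    fun z hz => ?_, fun z hz j => ⟨?_, ?_⟩⟩
  · set LG : ℝ := N * (gl * (s * L) + gt * T) with hLG
    have hLG0 : 0 ≤ LG := by positivity
    rw [zero_add]
    have a1 : LG / (1 - x) ^ 2 ≤ 4 * LG := by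
      rw [div_le_iff₀ (by positivity)]
      have h1 : (1 / 2 : ℝ) ^ 2 ≤ (1 - x) ^ 2 := pow_le_pow_left₀ (by norm_num) (by linarith) 2
      have h2 := mul_le_mul_of_nonneg_left h1 (by positivity : 0 ≤ 4 * LG)
      linarith
    have a2 : 1 / (1 - x) ≤ 1 + 2 * x := by
      rw [div_le_iff₀ hx1]
      have h1 := mul_nonneg hx00 (by linarith : 0 ≤ 1 - 2 * x)
      linarith
    have a3 : B1 * (LG / (1 - x) ^ 2) ≤ B1 * (4 * LG) := mul_le_mul_of_nonneg_left a1 hB10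
    have a4 : 1 / (1 - x) * (L + 17 * s1) ≤ (1 + 2 * x) * (L + 17 * s1) :=
      mul_le_mul_of_nonneg_right a2 (by positivity)
    have a5 : (1 + 2 * x) * (L + 17 * s1) ≤ (1 + 2 * x) * L + 34 * s1 := by
      have h1 := mul_le_mul_of_nonneg_right (by linarith : 1 + 2 * x ≤ 2)
        (by positivity : 0 ≤ 17 * s1)
      linarith
    have a6 : B1 * (4 * LG) + ((1 + 2 * x) * L + 34 * s1) =
        (1 + (4 * B1 * N * gl + 2 * N * gb) * s) * L + (4 * B1 * N * gt + 34 * σ) * T := by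
      rw [hLG, hx, hs1d]
      ring
    have a7 : (4 * B1 * N * gl + 2 * N * gb) * s ≤ C * s :=
      mul_le_mul_of_nonneg_right (by rw [hC]; linarith) hs0
    have a8 : (1 + (4 * B1 * N * gl + 2 * N * gb) * s) * L ≤ (1 + C * s) * L :=
      mul_le_mul_of_nonneg_right (by linarith) hL0
    have a9 : (4 * B1 * N * gt + 34 * σ) * T ≤ C * T :=
      mul_le_mul_of_nonneg_right (by rw [hC]; linarith) hT0
    linarith
  · have h0 := hG0 z hz
    unfold bd
    have h1 : ∑ j, (F z j + Q z j) * (H1 z j * (G z)⁻¹) = G z * (G z)⁻¹ := by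
      rw [hGe z hz, Finset.sum_mul]
      exact Finset.sum_congr rfl fun j _ => by ring
    rw [h1, mul_inv_cancel₀ h0]
  · refine (hfin z hz j).trans ?_
    rw [he, ← mul_assoc]
    exact mul_le_mul_of_nonneg_right (by rw [hC]; linarith) hη0
  · have h1 := hfin z hz j
    have h2 : ‖GG A (F z) (H z) (Q z) j - H z j‖ ≤ 5 * b0 * nn (Q z) := by
      have b1 := n1 j z hz
      have b2 := n2 j z hz
      have b3 := n3 j z hz
      have hnn := nn_nonneg (Q z)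
      have d1 : ‖p2 A j (F z) (H z) (Q z) * (1 / (1 - pW (F z) (H z) (Q z)))‖ ≤
          2 * (b0 * nn (Q z)) := by
        rw [norm_mul, norm_div, norm_one, mul_one_div, div_le_iff₀ (by linarith [dW z hz])]
        have h5 : 0 ≤ 2 * (b0 * nn (Q z)) := by positivity
        have h6 := mul_le_mul_of_nonneg_left (dW z hz) h5
        linarith
      have d2 : ‖p3 A j (H z) (Q z) * (1 / (1 + pY A (H z) (Q z)))‖ ≤
          2 * (b0 * nn (Q z)) := by
        rw [norm_mul, norm_div, norm_one, mul_one_div, div_le_iff₀ (by linarith [dY z hz])]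
        have h5 : 0 ≤ 2 * (b0 * nn (Q z)) := by positivity
        have h6 := mul_le_mul_of_nonneg_left (dY z hz) h5
        linarith
      rw [GG_split]
      have h6 : H z j + p1 A j (F z) (H z) (Q z) + p2 A j (F z) (H z) (Q z) *
          (1 / (1 - pW (F z) (H z) (Q z))) - p3 A j (H z) (Q z) *
          (1 / (1 + pY A (H z) (Q z))) - H z j = (p1 A j (F z) (H z) (Q z) +
          p2 A j (F z) (H z) (Q z) * (1 / (1 - pW (F z) (H z) (Q z)))) - p3 A j (H z) (Q z) *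
          (1 / (1 + pY A (H z) (Q z))) := by ring
      rw [h6]
      refine (norm_sub_le _ _).trans ?_
      have h7 := norm_add_le (p1 A j (F z) (H z) (Q z)) (p2 A j (F z) (H z) (Q z) *
        (1 / (1 - pW (F z) (H z) (Q z))))
      linarith
    have h3 : H1 z j * (G z)⁻¹ - H z j = (H1 z j * (G z)⁻¹ - GG A (F z) (H z) (Q z) j) +
        (GG A (F z) (H z) (Q z) j - H z j) := by ring
    change ‖H1 z j * (G z)⁻¹ - H z j‖ ≤ _
    rw [h3]
    refine (norm_add_le _ _).trans ?_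
    have h4 : (6 * N * B1 * κ + κ) * e ≤ C * η := by
      rw [he, ← mul_assoc]
      exact mul_le_mul_of_nonneg_right (by rw [hC]; linarith) hη0
    have h5 : 5 * b0 * nn (Q z) ≤ C * nn (Q z) :=
      mul_le_mul_of_nonneg_right (by rw [hC]; linarith) (nn_nonneg _)
    rw [mul_add]
    linarith

end Pool.Agent.K9h23.Din
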