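import Mathlib
import Pool.Agent.K9h23.Din.Sml
import Pool.Agent.K9h23.Big.Rec

/-!
The recursion without gaps, for square summable sizes.
-/

set_option autoImplicit false

open MeasureTheory Set Complex Metric Filter Topology
open scoped Real

namespace Pool.Agent.K9h23.Din

open Pool.Agent.K9h23.Hom Pool.Agent.K9h23.Bnd Pool.Agent.K9h23.Mix Pool.Agent.K9h23.Big
open Pool.Agent.K9h23.Lac (nsq nsq_nonneg nsq_cont nsq_c nn nn_nonneg nn_sq nn_add_le le_nsq
  nsq_smul' bd bd_le_nn comp_le_nn nsq_conj nn_le_comp GG GG_prop Adm Bal isOpen_Bal)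

variable {m N : ℕ}

/-- the data -/
structure Dd (δ : ℝ) (K : ℕ) (s : ℕ → ℝ) (l : ℕ → ℕ) (F Q : ℕ → E m → Fin N → ℂ) : Prop where
  s0 : ∀ i, 0 ≤ s i
  sQ : ∀ i z, ‖z‖ ≤ 1 → nn (Q i z) ≤ s i
  l2 : ∀ i, 2 ≤ l i
  ld : ∀ i, 2 * l i ≤ l (i + 1)
  li : ∀ i, i ≤ l i
  Qg : ∀ i j, Gr (l i) (K * l i) (fun z => Q i z j)
  Fs : ∀ i z j, F (i + 1) z j = F i z j + Q i z j
  Fb : ∀ i z, ‖z‖ ≤ 1 → δ ≤ nn (F i z) ∧ nn (F i z) ≤ 2

/-- the Lipschitz constants -/
noncomputable def Lq (C X : ℝ) (K : ℕ) (s : ℕ → ℝ) (l : ℕ → ℕ) : ℕ → ℝ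
  | 0 => X * Real.sqrt (l 0)
  | i + 1 => (1 + C * s i) * Lq C X K s l i + C * (s i * Real.sqrt ((K * l i : ℕ) : ℝ))

theorem Lq_nonneg {C X : ℝ} {K : ℕ} {s : ℕ → ℝ} {l : ℕ → ℕ} (hC : 0 ≤ C) (hX : 0 ≤ X)
    (hs : ∀ i, 0 ≤ s i) (i : ℕ) : 0 ≤ Lq C X K s l i := by
  induction i with
  | zero => unfold Lq; positivity
  | succ i ih =>
    have := hs i
    unfold Lq
    positivity

theorem Lq_step {C X : ℝ} {K : ℕ} {s : ℕ → ℝ} {l : ℕ → ℕ} (hC : 0 ≤ C) (hX : 0 ≤ X)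
    (hs : ∀ i, 0 ≤ s i) (hl : ∀ i, 1 ≤ l i) (hld : ∀ i, 2 * l i ≤ l (i + 1)) (i : ℕ)
    (hsm : 20 * C * s i ≤ 1) : Lq C X K s l (i + 1) / Real.sqrt (l (i + 1)) ≤
      3 / 4 * (Lq C X K s l i / Real.sqrt (l i)) + C * Real.sqrt K * s i := by
  have hL := Lq_nonneg (K := K) (l := l) hC hX hs i
  have hl0 : (0:ℝ) < l i := by exact_mod_cast hl i
  have hl1 : (0:ℝ) < l (i + 1) := by exact_mod_cast hl (i + 1)
  have h0 : 0 < Real.sqrt (l i) := Real.sqrt_pos.2 hl0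
  have h1 : 0 < Real.sqrt (l (i + 1)) := Real.sqrt_pos.2 hl1
  have hsi := hs i
  have h14 : 7 / 5 * Real.sqrt (l i) ≤ Real.sqrt (l (i + 1)) := by
    refine Real.le_sqrt_of_sq_le ?_
    rw [mul_pow, Real.sq_sqrt hl0.le]
    have : (2 * l i : ℝ) ≤ l (i + 1) := by exact_mod_cast hld i
    nlinarith
  set x : ℝ := Lq C X K s l i / Real.sqrt (l i) with hx
  have hx0 : 0 ≤ x := by positivity
  have hxe : Lq C X K s l i = x * Real.sqrt (l i) := by rw [hx]; field_simp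
  rw [div_le_iff₀ h1]
  change (1 + C * s i) * Lq C X K s l i + C * (s i * Real.sqrt ((K * l i : ℕ) : ℝ)) ≤ _
  have hK : Real.sqrt ((K * l i : ℕ) : ℝ) = Real.sqrt K * Real.sqrt (l i) := by
    push_cast
    rw [Real.sqrt_mul (Nat.cast_nonneg _)]
  rw [hK, hxe]
  have hK0 := Real.sqrt_nonneg (K:ℝ)
  have h2 : (3 / 4 * x + C * Real.sqrt K * s i) * (7 / 5 * Real.sqrt (l i)) ≤
      (3 / 4 * x + C * Real.sqrt K * s i) * Real.sqrt (l (i + 1)) :=
    mul_le_mul_of_nonneg_left h14 (by positivity)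
  refine le_trans ?_ h2
  have h3 : (1 + C * s i) * (x * Real.sqrt (l i)) ≤ 21 / 20 * (x * Real.sqrt (l i)) :=
    mul_le_mul_of_nonneg_right (by linarith) (by positivity)
  have h4 : 0 ≤ C * Real.sqrt K * s i * Real.sqrt (l i) := by positivity
  nlinarith

/-- the invariant for the sums -/
theorem sum_inv {s x : ℕ → ℝ} {a X ε : ℝ} (hε : 0 < ε)
    (hx : ∀ i, 0 ≤ x i) (hx0 : x 0 ≤ X) (ha : 0 ≤ a) (hs : ∀ i, 0 ≤ s i)
    (h : ∀ i, x (i + 1) ≤ 3 / 4 * x i + a * s i) (I : ℕ) :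
    ∑ i ∈ Finset.range I, s i * x i + ε * x I ^ 2 ≤
      ε * X ^ 2 + (4 * a ^ 2 * ε + 1 / ε) * ∑ i ∈ Finset.range I, s i ^ 2 := by
  induction I with
  | zero =>
    simp only [Finset.range_zero, Finset.sum_empty, zero_add, mul_zero, add_zero]
    exact mul_le_mul_of_nonneg_left (pow_le_pow_left₀ (hx 0) hx0 2) hε.le
  | succ I ih =>
    rw [Finset.sum_range_succ, Finset.sum_range_succ, mul_add]
    have h1 : x (I + 1) ^ 2 ≤ (3 / 4 * x I + a * s I) ^ 2 := pow_le_pow_left₀ (hx _) (h I) 2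
    have h2 : (3 / 4 * x I + a * s I) ^ 2 ≤ 3 / 4 * x I ^ 2 + 4 * a ^ 2 * s I ^ 2 := by
      nlinarith [sq_nonneg (x I - 4 * (a * s I))]
    have h3 : ε * x (I + 1) ^ 2 ≤ ε * (3 / 4 * x I ^ 2 + 4 * a ^ 2 * s I ^ 2) :=
      mul_le_mul_of_nonneg_left (h1.trans h2) hε.le
    have h4 : s I * x I ≤ ε / 4 * x I ^ 2 + 1 / ε * s I ^ 2 := by
      have h5 : 0 ≤ (ε * x I / 2 - s I) ^ 2 := sq_nonneg _
      have h6 : ε / 4 * x I ^ 2 + 1 / ε * s I ^ 2 - s I * x I =
          (ε * x I / 2 - s I) ^ 2 / ε := by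
        field_simp
        ring
      have h7 : 0 ≤ (ε * x I / 2 - s I) ^ 2 / ε := by positivity
      linarith
    nlinarith

/-- **The recursion.** -/
theorem drec (m N K : ℕ) (hK : 1 ≤ K) {δ : ℝ} (hδ : 0 < δ) (hδ1 : δ ≤ 1) :
    ∃ A : ℝ, 4 ≤ A ∧ ∀ P0 X : ℝ, 400 * A ≤ P0 → 1 ≤ X →
    ∃ c : ℝ, 0 < c ∧ ∀ (s : ℕ → ℝ) (l : ℕ → ℕ) (F Q : ℕ → E m → Fin N → ℂ)
      (f : E m → Fin N → ℂ), Dd δ K s l F Q → (∀ i, s i ≤ c) →
      (∀ I, ∑ i ∈ Finset.range I, s i ^ 2 ≤ c) →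
      (∀ z, ‖z‖ < 1 → ∀ j, Tendsto (fun i => F i z j) atTop (𝓝 (f z j))) →
      (∀ j, Lc 2 (X * Real.sqrt (l 0)) (fun z => F 0 z j)) →
      ∀ h0 : E m → Fin N → ℂ, (∀ j, ∃ b', Lc b' (X * Real.sqrt (l 0)) (fun z => h0 z j)) →
      (∀ z, ‖z‖ ≤ 1 → bd (F 0 z) (h0 z) = 1) →
      (∀ z, ‖z‖ ≤ 1 → nsq (h0 z) * Real.exp (-(A * nsq (F 0 z))) ≤ P0) →
      ∃ g : Fin N → (Fin m → ℂ) → ℂ, (∀ j, DifferentiableOn ℂ (g j) (Bal m)) ∧
        (∀ z ∈ Bal m, nsq (fun j => g j z) ≤ P0 * Real.exp 1 * Real.exp (4 * A)) ∧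
        ∀ z ∈ Bal m, ∑ j, f (WithLp.toLp 2 z) j * g j z = 1 := by
  have hN0 : (0:ℝ) ≤ N := Nat.cast_nonneg N
  set A : ℝ := 4 + 16 / δ ^ 2 with hAd
  have hd1 : 0 < 16 / δ ^ 2 := by positivity
  have hA : 4 ≤ A := by rw [hAd]; linarith
  have hA0 : 0 < A := by linarith
  have hAδ : 16 ≤ A * δ ^ 2 := by
    have h1 : 16 / δ ^ 2 * δ ^ 2 = 16 := by field_simp
    have h2 : 16 / δ ^ 2 * δ ^ 2 ≤ A * δ ^ 2 :=
      mul_le_mul_of_nonneg_right (by rw [hAd]; linarith) (by positivity)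
    linarith
  refine ⟨A, hA, fun P0 X hP0 hX1 => ?_⟩
  have hX0 : 0 < X := by linarith
  have hP01 : 1 ≤ P0 := by linarith
  set Y : ℝ := P0 * Real.exp 1 * Real.exp (4 * A) with hY
  have hY1 : 1 ≤ Y := by
    have h1 : 1 ≤ Real.exp 1 := Real.one_le_exp (by norm_num)
    have h2 : 1 ≤ Real.exp (4 * A) := Real.one_le_exp (by positivity)
    rw [hY]
    nlinarith [mul_le_mul hP01 h1 zero_le_one (by linarith)]
  set B : ℝ := Real.sqrt Y with hB
  have hB1 : 1 ≤ B := Real.one_le_sqrt.2 hY1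
  have hB2 : B ^ 2 = Y := Real.sq_sqrt (by linarith)
  obtain ⟨Cd, hCd, hstep⟩ := dstage m N (A := A) (B := B) (X := X) hA hB1 hX0.le
  set C : ℝ := Cd + 12 with hC
  have hC0 : 0 < C := by linarith
  have hCdC : Cd ≤ C := by linarith
  set a : ℝ := C * Real.sqrt K with ha
  have ha0 : 0 ≤ a := by positivity
  set C3 : ℝ := 2 * (N + 1) * C with hC3
  have hC30 : 0 < C3 := by positivity
  have hCC3 : C ≤ C3 := by rw [hC3]; nlinarith
  set ε : ℝ := 1 / (2 * C3 * X ^ 2) with hε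
  have hε0 : 0 < ε := by positivity
  set D : ℝ := 4 * a ^ 2 * ε + 1 / ε with hD
  have hD0 : 0 < D := by positivity
  set Z : ℝ := 20 * C + 4 * a + 100 * A ^ 2 + 2 * C3 * D with hZ
  have hZ0 : 0 < Z := by positivity
  refine ⟨1 / Z, by positivity, fun s l F Q f M hs1 hs2 hlim hF0 h0 hh0 hbd0 hg0 => ?_⟩
  have hl1 : ∀ i, 1 ≤ l i := fun i => by have := M.l2 i; omega
  have hl0 : ∀ i, (0:ℝ) < l i := fun i => by exact_mod_cast hl1 i
  have hZs : ∀ i {c : ℝ}, 0 ≤ c → c ≤ Z → c * s i ≤ 1 := by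
    intro i c hc hcZ
    calc c * s i ≤ Z * (1 / Z) := mul_le_mul hcZ (hs1 i) (M.s0 i) hZ0.le
      _ = 1 := mul_one_div_cancel hZ0.ne'
  have t1 : 0 ≤ 2 * C3 * D := by positivity
  have t2 : 0 ≤ 100 * A ^ 2 := by positivity
  have h20 : ∀ i, 20 * C * s i ≤ 1 := fun i => hZs i (by positivity) (by rw [hZ]; linarith)
  have h4a : ∀ i, 4 * a * s i ≤ 1 := fun i => hZs i (by positivity) (by rw [hZ]; linarith)
  have hAs : ∀ i, 100 * A ^ 2 * s i ≤ 1 := fun i => hZs i t2 (by rw [hZ]; linarith)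
  have hCs : ∀ i, Cd * s i ≤ 1 := fun i => hZs i (by linarith) (by rw [hZ]; linarith)
  set L : ℕ → ℝ := Lq C X K s l with hL
  have hLn : ∀ i, 0 ≤ L i := Lq_nonneg hC0.le hX0.le M.s0
  set x : ℕ → ℝ := fun i => L i / Real.sqrt (l i) with hx
  have hxn : ∀ i, 0 ≤ x i := fun i => div_nonneg (hLn i) (Real.sqrt_nonneg _)
  have hxs : ∀ i, x (i + 1) ≤ 3 / 4 * x i + a * s i := fun i =>
    Lq_step hC0.le hX0.le M.s0 hl1 M.ld i (h20 i)
  have hx0 : x 0 ≤ X := by
    rw [hx]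
    beta_reduce
    rw [div_le_iff₀ (Real.sqrt_pos.2 (hl0 0))]
    exact le_rfl
  have hxX : ∀ i, x i ≤ X := by
    intro i
    induction i with
    | zero => exact hx0
    | succ i ih =>
      have h1 := hxs i
      have h2 := h4a i
      linarith
  have hLX : ∀ i, L i ≤ X * Real.sqrt (l i) := fun i => by
    have := hxX i
    rw [hx] at this
    beta_reduce at this
    rwa [div_le_iff₀ (Real.sqrt_pos.2 (hl0 i))] at this
  set η : ℕ → ℝ := fun i => s i * x i with hη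
  have hη0 : ∀ i, 0 ≤ η i := fun i => mul_nonneg (M.s0 i) (hxn i)
  have hgap : ∀ I, ∑ i ∈ Finset.range I, η i ≤ 1 / C3 := by
    intro I
    have h1 := sum_inv (X := X) (a := a) hε0 hxn hx0 ha0 M.s0 hxs I
    have h2 : 0 ≤ ε * x I ^ 2 := by positivity
    have h3 : ε * X ^ 2 = 1 / (2 * C3) := by
      rw [hε]; field_simp
    have h4 : D * ∑ i ∈ Finset.range I, s i ^ 2 ≤ D * (1 / Z) :=
      mul_le_mul_of_nonneg_left (hs2 I) hD0.le
    have h5 : D * (1 / Z) ≤ 1 / (2 * C3) := by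
      rw [mul_one_div, div_le_div_iff₀ hZ0 (by positivity)]
      have : 0 ≤ 20 * C + 4 * a + 100 * A ^ 2 := by positivity
      rw [hZ]
      linarith
    have h6 : 1 / C3 = 1 / (2 * C3) + 1 / (2 * C3) := by field_simp; norm_num
    rw [h6]
    linarith
  have hηs : Summable η := summable_of_sum_range_le hη0 hgap
  -- the Lipschitz constants of the data
  have hFl : ∀ i j, Lc 2 (L i) (fun z => F i z j) := by
    intro i
    induction i with
    | zero => exact hF0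
    | succ i ih =>
      intro j
      have hsi := M.s0 i
      have h1 := Lc.of_gr (D := K * l i) (Nat.mul_pos hK (hl1 i))
        ((M.Qg i j).mono (Nat.zero_le _) le_rfl) hsi
        (fun z hz => (comp_le_nn (Q i z) j).trans (M.sQ i z hz))
      have h2 := (ih j).add h1
      have h3 : Lc (2 + s i) (L i + 12 * s i * Real.sqrt ((K * l i : ℕ) : ℝ))
          (fun z => F (i + 1) z j) := by
        have e : (fun z => F (i + 1) z j) = fun z => F i z j + Q i z j := funext fun z => M.Fs i z j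
        rw [e]
        exact h2
      have h4 : L i + 12 * s i * Real.sqrt ((K * l i : ℕ) : ℝ) ≤ L (i + 1) := by
        change _ ≤ (1 + C * s i) * L i + C * (s i * Real.sqrt ((K * l i : ℕ) : ℝ))
        have a1 : 0 ≤ C * s i * L i := mul_nonneg (mul_nonneg hC0.le hsi) (hLn i)
        have a2 : 12 * (s i * Real.sqrt ((K * l i : ℕ) : ℝ)) ≤
            C * (s i * Real.sqrt ((K * l i : ℕ) : ℝ)) :=
          mul_le_mul_of_nonneg_right (by linarith) (by positivity)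
        linarith
      have h5 := h3.mono le_rfl h4
      exact ⟨h5.meas, h5.dif, h5.L0, fun z hz => (comp_le_nn _ j).trans (M.Fb (i + 1) z hz).2,
        h5.lip⟩
  -- the invariant
  set Pz : ℕ → ℝ := fun i => P0 * Real.exp (C3 * ∑ t ∈ Finset.range i, η t) with hPz
  have hPA : ∀ i, 400 * A ≤ Pz i := by
    intro i
    rw [hPz]
    have h2 : 0 ≤ ∑ t ∈ Finset.range i, η t := Finset.sum_nonneg fun t _ => hη0 t
    have h3 : 1 ≤ Real.exp (C3 * ∑ t ∈ Finset.range i, η t) := Real.one_le_exp (by positivity)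
    have : P0 * 1 ≤ P0 * Real.exp (C3 * ∑ t ∈ Finset.range i, η t) :=
      mul_le_mul_of_nonneg_left h3 (by linarith)
    simp only
    linarith
  set Good : ℕ → (E m → Fin N → ℂ) → Prop := fun i H =>
    (∀ j, ∃ b', Lc b' (L i) (fun z => H z j)) ∧
    (∀ z, ‖z‖ ≤ 1 → bd (F i z) (H z) = 1) ∧
    (∀ z, ‖z‖ ≤ 1 → nsq (H z) * Real.exp (-(A * nsq (F i z))) ≤ Pz i) with hGood
  have hFn : ∀ i z, ‖z‖ ≤ 1 → nsq (F i z) ≤ 4 := by
    intro i z hz
    rw [← nn_sq]
    have := (M.Fb i z hz).2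
    nlinarith [nn_nonneg (F i z)]
  have hsize2 : ∀ i H, Good i H → ∀ z, ‖z‖ ≤ 1 → nsq (H z) ≤ Y := by
    intro i H hH z hz
    have h1 := hH.2.2 z hz
    have h2 : Pz i ≤ P0 * Real.exp 1 := by
      rw [hPz]
      refine mul_le_mul_of_nonneg_left (Real.exp_le_exp.2 ?_) (by linarith)
      have h4 : C3 * ∑ t ∈ Finset.range i, η t ≤ C3 * (1 / C3) :=
        mul_le_mul_of_nonneg_left (hgap i) hC30.le
      have h5 : C3 * (1 / C3) = 1 := by field_simp
      linarith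
    have h3 := hFn i z hz
    rw [hY]
    have h4 : nsq (H z) = nsq (H z) * Real.exp (-(A * nsq (F i z))) *
        Real.exp (A * nsq (F i z)) := by
      rw [mul_assoc, ← Real.exp_add]
      simp
    rw [h4]
    have h5 : Real.exp (A * nsq (F i z)) ≤ Real.exp (4 * A) := Real.exp_le_exp.2 (by nlinarith)
    exact mul_le_mul (h1.trans h2) h5 (Real.exp_pos _).le (by positivity)
  have hsize : ∀ i H, Good i H → ∀ z, ‖z‖ ≤ 1 → nn (H z) ≤ B := by
    intro i H hH z hz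
    refine Pool.Agent.K9h23.Lac.nn_le_of (by linarith) ?_
    rw [hB2]
    exact hsize2 i H hH z hz
  have hnext : ∀ i H, Good i H → ∃ H', Good (i + 1) H' ∧
      ∀ z, ‖z‖ ≤ 1 → ∀ j, ‖H' z j - H z j‖ ≤ C * (nn (Q i z) + η i) := by
    intro i H hH
    have hsz := hsize i H hH
    have hsi := M.s0 i
    have hl : ∀ j, Lc B (L i) (fun z => H z j) := by
      intro j
      obtain ⟨b', hb'⟩ := hH.1 j
      exact ⟨hb'.meas, hb'.dif, hb'.L0, fun z hz => (comp_le_nn _ j).trans (hsz z hz), hb'.lip⟩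
    have hQsm : ∀ z, ‖z‖ ≤ 1 → nsq (Q i z) * (100 * A ^ 2) ^ 2 ≤ 1 := by
      intro z hz
      rw [← nn_sq, ← mul_pow]
      refine pow_le_one₀ (mul_nonneg (nn_nonneg _) t2) ?_
      have h1 := mul_le_mul_of_nonneg_right (M.sQ i z hz) t2
      have h2 := hAs i
      linarith
    have hSr : Sr A B (s i) (L i) (l i) (K * l i) (F i) H (Q i) := by
      refine ⟨hA, hLn i, M.l2 i, Nat.le_mul_of_pos_left _ hK, hFl i, M.Qg i, fun z hz => ?_,
        hQsm, M.sQ i, hl, hsz⟩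
      have a1 := (M.Fb i z hz).1
      have a3 : δ ^ 2 ≤ nsq (F i z) := by
        rw [← nn_sq]; exact pow_le_pow_left₀ hδ.le a1 2
      exact ⟨hAδ.trans (mul_le_mul_of_nonneg_left a3 hA0.le), hFn i z hz⟩
    obtain ⟨H', h1, h2, h3⟩ := hstep (s i) (L i) (l i) (K * l i) (F i) H (Q i) hSr hH.2.1
      (hLX i) (hCs i)
    have hFe : ∀ z, (fun j => F i z j + Q i z j) = F (i + 1) z := fun z => by
      funext j
      rw [M.Fs]
    have hsu0 : 0 ≤ s i * Real.sqrt ((K * l i : ℕ) : ℝ) := by positivity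
    refine ⟨H', ⟨fun j => ?_, fun z hz => ?_, fun z hz => ?_⟩, fun z hz j => ?_⟩
    · obtain ⟨b', hb'⟩ := h1 j
      refine ⟨b', hb'.mono le_rfl ?_⟩
      change _ ≤ (1 + C * s i) * L i + C * (s i * Real.sqrt ((K * l i : ℕ) : ℝ))
      have a1 : (1 + Cd * s i) * L i ≤ (1 + C * s i) * L i :=
        mul_le_mul_of_nonneg_right (by nlinarith) (hLn i)
      have a2 := mul_le_mul_of_nonneg_right hCdC hsu0
      linarith
    · have := h2 z hz
      rw [hFe] at this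
      exact this
    · have hAdm : Adm A (F i z) (Q i z) := ⟨hA, (hSr.Fb z hz).1, (hSr.Fb z hz).2, hQsm z hz⟩
      have hG := (GG_prop hAdm (hH.2.1 z hz)).2
      rw [hFe] at hG
      have hP := hPA i
      have hP1 : 1 ≤ Pz i := by linarith
      have hG2 : nsq (GG A (F i z) (H z) (Q i z)) * Real.exp (-(A * nsq (F (i + 1) z))) ≤
          Pz i * Real.exp 0 := by
        rw [Real.exp_zero, mul_one]
        have a1 : nsq (GG A (F i z) (H z) (Q i z)) ≤
            Pz i * Real.exp (A * nsq (F (i + 1) z)) :=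
          hG.trans (mul_le_mul_of_nonneg_right (max_le (hH.2.2 z hz) hP) (Real.exp_pos _).le)
        calc nsq (GG A (F i z) (H z) (Q i z)) * Real.exp (-(A * nsq (F (i + 1) z))) ≤
              Pz i * Real.exp (A * nsq (F (i + 1) z)) * Real.exp (-(A * nsq (F (i + 1) z))) :=
              mul_le_mul_of_nonneg_right a1 (Real.exp_pos _).le
          _ = Pz i := by
            rw [mul_assoc, ← Real.exp_add]
            simp
      have hy : nn (fun j => H' z j - GG A (F i z) (H z) (Q i z) j) ≤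
          (N + 1) * (C * η i) := nn_le_comp (mul_nonneg hC0.le (hη0 i)) fun j =>
            ((h3 z hz) j).1.trans (mul_le_mul_of_nonneg_right hCdC (hη0 i))
      have h4 := from_model (G := F i z) hA0.le hP1 (nsq_nonneg (F (i + 1) z)) le_rfl
        (mul_nonneg (by positivity) (mul_nonneg hC0.le (hη0 i))) hG2 hy
      refine h4.trans (le_of_eq ?_)
      rw [hPz]
      simp only
      rw [mul_assoc, ← Real.exp_add, Finset.sum_range_succ]
      congr 2
      rw [hC3]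
      ring
    · refine ((h3 z hz) j).2.trans (mul_le_mul_of_nonneg_right hCdC ?_)
      have := nn_nonneg (Q i z)
      have := hη0 i
      change 0 ≤ nn (Q i z) + η i
      linarith
  have hgood0 : Good 0 h0 := by
    refine ⟨fun j => hh0 j, hbd0, fun z hz => ?_⟩
    have h3 : Pz 0 = P0 := by
      rw [hPz]
      simp
    rw [h3]
    exact hg0 z hz
  -- the sequence
  choose! nx hnx1 hnx2 using hnext
  set sq : ℕ → E m → Fin N → ℂ := fun i => Nat.rec h0 (fun i H => nx i H) i with hsq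
  have hsq0 : sq 0 = h0 := rfl
  have hsqs : ∀ i, sq (i + 1) = nx i (sq i) := fun i => rfl
  have hgood : ∀ i, Good i (sq i) := by
    intro i
    induction i with
    | zero => exact hgood0
    | succ i ih =>
      rw [hsqs]
      exact hnx1 i _ ih
  have hQb : ∀ i z a, ‖z‖ ≤ 1 → ‖Q i z a‖ ≤ 4 := by
    intro i z a hz
    have e : Q i z a = F (i + 1) z a - F i z a := by
      rw [M.Fs]; ring
    rw [e]
    refine (norm_sub_le _ _).trans ?_
    have h1 := (comp_le_nn _ a).trans (M.Fb (i + 1) z hz).2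
    have h2 := (comp_le_nn _ a).trans (M.Fb i z hz).2
    linarith
  have hQr : ∀ i z r, ‖z‖ ≤ r → r < 1 → nn (Q i z) ≤ (N + 1) * (4 * r ^ i) := by
    intro i z r hz hr
    have hr0 : 0 ≤ r := (norm_nonneg z).trans hz
    refine nn_le_comp (by positivity) fun a => ?_
    have h1 := (M.Qg i a).schwarz (fun z hz => hQb i z a hz) (hz.trans hr.le)
    refine h1.trans (mul_le_mul_of_nonneg_left ?_ (by norm_num))
    refine (pow_le_pow_left₀ (norm_nonneg _) hz _).trans ?_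
    exact pow_le_pow_of_le_one hr0 hr.le (M.li i)
  set C2 : ℝ := C * (4 * (N + 1) + 1) with hC2
  have hlimj : ∀ j, ∃ g : (Fin m → ℂ) → ℂ, DifferentiableOn ℂ g (Bal m) ∧
      ∀ z ∈ Bal m, Tendsto (fun k => sq k (WithLp.toLp 2 z) j) atTop (𝓝 (g z)) := by
    intro j
    refine limit_on (u := fun k z => sq k (WithLp.toLp 2 z) j)
      (fun k => ?_) hηs (C1 := C2) (M := B) (fun k r hr0 hr1 z hz => ?_)
      (fun k z hz => (comp_le_nn _ j).trans (hsize k _ (hgood k) _ (toLp_lt hz).le))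
    · obtain ⟨b', hb'⟩ := (hgood k).1 j
      exact toLp_diffOn hb'
    · have hy1 : ‖(WithLp.toLp 2 z : E m)‖ ≤ r := toLp_le hr0.le hz
      have h1 := hnx2 k _ (hgood k) (WithLp.toLp 2 z) (by linarith) j
      rw [← hsqs] at h1
      refine h1.trans ?_
      have h2 := hQr k _ r hy1 hr1
      have h3 : 0 ≤ r ^ k := by positivity
      have h4 := hη0 k
      rw [hC2, mul_assoc]
      refine mul_le_mul_of_nonneg_left ?_ hC0.le
      have h5 : 0 ≤ 4 * ((N:ℝ) + 1) * η k := by positivity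
      have h6 : (4 * ((N:ℝ) + 1) + 1) * (η k + r ^ k) = 4 * (N + 1) * η k + η k +
        (4 * (N + 1)) * r ^ k + r ^ k := by ring
      rw [h6]
      linarith
  choose g hg1 hg2 using hlimj
  refine ⟨g, hg1, fun z hz => ?_, fun z hz => ?_⟩
  · have h1 : Tendsto (fun k => nsq (sq k (WithLp.toLp 2 z))) atTop
        (𝓝 (nsq (fun j => g j z))) := by
      unfold nsq
      exact tendsto_finsetSum _ fun j _ => ((hg2 j z hz).norm).pow 2
    exact le_of_tendsto h1 (Eventually.of_forall fun k => hsize2 k _ (hgood k) _ (toLp_lt hz).le)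
  · have h1 : Tendsto (fun k => ∑ j, F k (WithLp.toLp 2 z) j * sq k (WithLp.toLp 2 z) j) atTop
        (𝓝 (∑ j, f (WithLp.toLp 2 z) j * g j z)) :=
      tendsto_finsetSum _ fun j _ => (hlim _ (toLp_lt hz) j).mul (hg2 j z hz)
    have h2 : (fun k => ∑ j, F k (WithLp.toLp 2 z) j * sq k (WithLp.toLp 2 z) j) =
        fun _ => (1:ℂ) := by
      funext k
      exact (hgood k).2.1 _ (toLp_lt hz).le
    rw [h2] at h1
    exact tendsto_nhds_unique h1 tendsto_const_nhds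

end Pool.Agent.K9h23.Din
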