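import Mathlib
import Pool.Agent.K9h23.Din.Rec
import Pool.Agent.K9h23.Din.Par
import Pool.Agent.K9h23.Big.Loc

/-!
Functions with square summable dyadic pieces: local solutions for `q - μ`, if `q` stays away from
`μ` near a boundary point.
-/

set_option autoImplicit false

open Complex Set Metric Filter Topology MvPolynomial
open scoped Real

namespace Pool.Agent.K9h23.Din

open Pool.Agent.K9h23.Hom Pool.Agent.K9h23.Bnd Pool.Agent.K9h23.Loc
open Pool.Agent.K9h23.Mix
open Pool.Agent.K9h23.Lac (nsq nsq_nonneg nn nn_nonneg nn_sq bd comp_le_nn nn_le_comp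
  nsq_smul' nsq_conj nsq_c Bal nn_add_le)

variable {n : ℕ}

/-- `f` is bounded and holomorphic, and `f - f(0)` is the sum of polynomials `q_k`, the `k`-th
having terms of degrees in `[2^k, K 2^k]` only and `|q_k| ≤ s_k` on the ball with `∑ s_k ^ 2 < ∞` -/
def InD (f : E n → ℂ) : Prop :=
  (DifferentiableOn ℂ f (ball 0 1) ∧ ∃ M : ℝ, ∀ z ∈ ball (0 : E n) 1, ‖f z‖ ≤ M) ∧
  ∃ (K : ℕ) (s : ℕ → ℝ) (P : ℕ → ℕ → MvPolynomial (Fin n) ℂ), (∀ k j, (P k j).IsHomogeneous j) ∧
    (Summable fun k => s k ^ 2) ∧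
    (∀ k, ∀ z ∈ ball (0 : E n) 1,
      ‖∑ j ∈ Finset.Icc (2 ^ k) (K * 2 ^ k), eval z.ofLp (P k j)‖ ≤ s k) ∧
    ∀ z ∈ ball (0 : E n) 1,
      HasSum (fun k => ∑ j ∈ Finset.Icc (2 ^ k) (K * 2 ^ k), eval z.ofLp (P k j)) (f z - f 0)

theorem sq_add_two {x y a : ℝ} (hx0 : 0 ≤ x) (hx : x ≤ a) (hy0 : 0 ≤ y) (hy : y ≤ 2) :
    x ^ 2 + y ^ 2 ≤ (a + 2) ^ 2 := by nlinarith

/-- the usable form -/
theorem InD.gr {f : E n → ℂ} (h : InD f) : ∃ (K : ℕ) (s : ℕ → ℝ) (T : ℕ → E n → ℂ),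
    1 ≤ K ∧ (∀ k, Gr (2 ^ k) (K * 2 ^ k) (T k)) ∧ (∀ k, 0 ≤ s k) ∧ (Summable fun k => s k ^ 2) ∧
    (∀ k z, ‖z‖ ≤ 1 → ‖T k z‖ ≤ s k) ∧ ∀ z, ‖z‖ < 1 → HasSum (fun k => T k z) (f z - f 0) := by
  obtain ⟨-, K, s, P, hP, hs, hPs, hsum⟩ := h
  have hgr : ∀ k, Gr (2 ^ k) (K * 2 ^ k)
      (fun z : E n => ∑ j ∈ Finset.Icc (2 ^ k) (K * 2 ^ k), eval z.ofLp (P k j)) := fun k =>
    Gr.sum _ fun j hj => Gr.single (k := j)
      (HH_Hm (P := fun i (_ : Fin 1) => P k i) (fun i _ => hP k i) j 0)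
      (Finset.mem_Icc.1 hj).1 (Finset.mem_Icc.1 hj).2
  have hcl : ∀ (k : ℕ) (z : E n), ‖z‖ ≤ 1 →
      ‖∑ j ∈ Finset.Icc (2 ^ k) (K * 2 ^ k), eval z.ofLp (P k j)‖ ≤ s k := fun k z hz =>
    le_closed (g := fun z : E n =>
      ‖∑ j ∈ Finset.Icc (2 ^ k) (K * 2 ^ k), eval z.ofLp (P k j)‖)
      (hgr k).diff.continuous.norm (fun z hz => hPs k z (mem_ball_zero_iff.2 hz)) hz
  refine ⟨K + 1, s, fun k z => ∑ j ∈ Finset.Icc (2 ^ k) (K * 2 ^ k), eval z.ofLp (P k j),
    by omega, fun k => (hgr k).mono le_rfl (Nat.mul_le_mul_right _ (Nat.le_succ K)),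
    fun k => (norm_nonneg _).trans (hcl k 0 (by simp)), hs, hcl,
    fun z hz => hsum z (mem_ball_zero_iff.2 hz)⟩

/-- **Local solutions.** -/
theorem dio_local {m : ℕ} (q : Fin m → E n → ℂ) (hq : ∀ i, InD (q i)) (μ : Fin m → ℂ) {p : E n}
    (hp : ‖p‖ = 1) {ρ η : ℝ} (hρ : 0 < ρ) (hη : 0 < η)
    (hlow : ∀ z, ‖z‖ < 1 → ‖z - p‖ < ρ → η ≤ ∑ i, ‖q i z - μ i‖) :
    ∃ G : Fin m → E n → ℂ, (∀ j, DifferentiableOn ℂ (G j) (ball 0 1)) ∧
      (∃ C : ℝ, ∀ j, ∀ z ∈ ball (0 : E n) 1, ‖G j z‖ ≤ C) ∧ ∃ ρ' : ℝ, 0 < ρ' ∧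
      ∀ z, ‖z‖ < 1 → ‖z - p‖ < ρ' → ‖∑ i, (q i z - μ i) * G i z - 1‖ ≤ 1 / 2 := by
  have hqb : ∀ i, ∃ M : ℝ, ∀ z ∈ ball (0 : E n) 1, ‖q i z‖ ≤ M := fun i => (hq i).1.2
  choose Mq hMq using hqb
  choose Kq sq T hKq hTg hsq0 hsqs hTs hTsum using fun i => (hq i).gr
  -- one K and one sequence
  set K : ℕ := 1 + ∑ i, Kq i with hK
  have hK1 : 1 ≤ K := by omega
  have hKi : ∀ i, Kq i ≤ K := fun i => by
    have := Finset.single_le_sum (f := Kq) (fun _ _ => Nat.zero_le _) (Finset.mem_univ i)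
    omega
  have hTg' : ∀ i k, Gr (2 ^ k) (K * 2 ^ k) (T i k) := fun i k =>
    (hTg i k).mono le_rfl (Nat.mul_le_mul_right _ (hKi i))
  set s : ℕ → ℝ := fun k => ∑ i, sq i k with hs
  have hs0 : ∀ k, 0 ≤ s k := fun k => Finset.sum_nonneg fun i _ => hsq0 i k
  have hsi : ∀ i k, sq i k ≤ s k := fun i k =>
    Finset.single_le_sum (f := fun i => sq i k) (fun i _ => hsq0 i k) (Finset.mem_univ i)
  have hs2 : Summable fun k => s k ^ 2 := by
    refine Summable.of_nonneg_of_le (fun k => sq_nonneg _) (fun k => ?_)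
      ((summable_sum (s := Finset.univ) fun i (_ : i ∈ Finset.univ) => hsqs i).mul_left (m : ℝ))
    have h1 := sq_sum_le_card_mul_sum_sq (s := (Finset.univ : Finset (Fin m)))
      (f := fun i => sq i k)
    rw [Finset.card_univ, Fintype.card_fin] at h1
    exact h1
  have hT : ∀ i k z, ‖z‖ ≤ 1 → ‖T i k z‖ ≤ s k := fun i k z hz =>
    (hTs i k z hz).trans (hsi i k)
  -- a common bound
  obtain ⟨σ, hσ0, hσ⟩ : ∃ σ : ℝ, 0 ≤ σ ∧ ∀ k, s k ≤ σ := by
    refine ⟨Real.sqrt (∑' k, s k ^ 2), Real.sqrt_nonneg _, fun k => ?_⟩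
    refine Real.le_sqrt_of_sq_le ?_
    exact hs2.le_tsum k fun j _ => sq_nonneg _
  set S : ℕ → Fin m → E n → ℂ := fun k i z => q i 0 + ∑ t ∈ Finset.range k, T i t z with hS
  have hSd : ∀ k i, Differentiable ℂ (S k i) := fun k i =>
    (differentiable_const _).add (Differentiable.fun_sum fun t _ => (hTg i t).diff)
  have hSs : ∀ k i z, S (k + 1) i z = S k i z + T i k z := fun k i z => by
    rw [hS]; beta_reduce; rw [Finset.sum_range_succ]; ring
  have hSlim : ∀ i z, ‖z‖ < 1 → Tendsto (fun k => S k i z) atTop (𝓝 (q i z)) := by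
    intro i z hz
    have h1 := (hTsum i z hz).tendsto_sum_nat.const_add (q i 0)
    have e : q i 0 + (q i z - q i 0) = q i z := by ring
    rwa [e] at h1
  set X : ℝ := 1 + ∑ i, (|Mq i| + 12 * ‖q i 0‖) + 36 * σ * Real.sqrt K + 2 * σ with hX
  have hXs : 0 ≤ ∑ i, (|Mq i| + 12 * ‖q i 0‖) := Finset.sum_nonneg fun i _ => by positivity
  have hXK : 0 ≤ 36 * σ * Real.sqrt K := by positivity
  have hX1 : 1 ≤ X := by rw [hX]; linarith
  have hXi : ∀ i, |Mq i| + 12 * ‖q i 0‖ ≤ ∑ i, (|Mq i| + 12 * ‖q i 0‖) := fun i =>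
    Finset.single_le_sum (f := fun i => |Mq i| + 12 * ‖q i 0‖) (fun i _ => by positivity)
      (Finset.mem_univ i)
  have hSb : ∀ k i z, ‖z‖ ≤ 1 → ‖S k i z‖ ≤ X := by
    intro k i z hz
    obtain ⟨hw1, hw2⟩ := par (K := K) (B0 := 1) (M := 1) (L0 := 1) hK1 le_rfl le_rfl
      (by omega) (b := ‖q i 0‖) (σ := σ) (F := fun k => S k i) (Q := fun t => T i t) (f := q i)
      (norm_nonneg _) hσ0 (by
        refine (Gr.single (k := 0) (Hm.const (q i 0)) le_rfl (Nat.zero_le _)).congr fun z => ?_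
        rw [hS]; simp) (fun z _ => by rw [hS]; simp)
      (fun t => by simpa using hTg' i t) (fun t z hz => (hT i t z hz).trans (hσ t))
      (fun t z => hSs t i z) (fun z hz => hSlim i z hz) (a := 1) le_rfl k hz
    set w : E n := ((rr 1 k 1 : ℝ) : ℂ) • z with hw
    have h1 := hMq i w (mem_ball_zero_iff.2 hw1)
    have h2 : ‖S k i z‖ ≤ ‖S k i z - q i w‖ + ‖q i w‖ := by
      have := norm_add_le (S k i z - q i w) (q i w)
      rwa [sub_add_cancel] at this
    simp only [Nat.cast_one, div_one, Real.sqrt_one, mul_one] at hw2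
    have h3 := le_abs_self (Mq i)
    have h4 := hXi i
    rw [hX]
    linarith
  -- constants
  set M0 : ℝ := 1 + 2 * X + ∑ i, (|Mq i| + ‖μ i‖) with hM0
  have hM0s : 0 ≤ ∑ i, (|Mq i| + ‖μ i‖) := Finset.sum_nonneg fun i _ => by positivity
  have hM01 : 1 ≤ M0 := by rw [hM0]; linarith
  set κ : ℝ := 1 / ((m + 1) * M0 + 2) with hκ
  have hden : 2 ≤ (m + 1) * M0 + 2 := by
    have : 0 ≤ ((m:ℝ) + 1) * M0 := by positivity
    linarith
  have hκ0 : 0 < κ := by rw [hκ]; positivity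
  have hκ1 : κ * ((m + 1) * M0 + 2) = 1 := by rw [hκ]; field_simp
  have hκ2 : κ ≤ 1 := by
    have := mul_le_mul_of_nonneg_left hden hκ0.le
    linarith
  have hκn : ‖(κ:ℂ)‖ = κ := by rw [Complex.norm_real, Real.norm_of_nonneg hκ0.le]
  set η' : ℝ := η / (m + 1) with hη'
  have hη'0 : 0 < η' := by positivity
  have hlow' : ∀ z, ‖z‖ < 1 → ‖z - p‖ < ρ → η' ≤ nn (fun i => q i z - μ i) := by
    intro z hz hzp
    have h1 := hlow z hz hzp
    have h2 : ∑ i, ‖q i z - μ i‖ ≤ m * nn (fun i => q i z - μ i) := by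
      refine (Finset.sum_le_card_nsmul _ _ (nn (fun i => q i z - μ i)) fun i _ =>
        comp_le_nn (fun i => q i z - μ i) i).trans (le_of_eq ?_)
      rw [nsmul_eq_mul, Finset.card_univ, Fintype.card_fin]
    rw [hη', div_le_iff₀ (by positivity)]
    have := nn_nonneg (fun i => q i z - μ i)
    linarith
  set x : ℝ := η' / (24 * X * (m + 1) * Real.sqrt K) with hx
  have hsK : 0 < Real.sqrt K := Real.sqrt_pos.2 (by exact_mod_cast hK1)
  have hx0 : 0 < x := by positivity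
  set ρ0 : ℝ := min (ρ ^ 2 / 2) (x ^ 2) with hρ0
  have hρ00 : 0 < ρ0 := lt_min (by positivity) (by positivity)
  obtain ⟨B1, hB1⟩ := exists_nat_ge (8 / ρ0)
  set B0 : ℕ := B1 + 1 with hB0
  have hB01 : 1 ≤ B0 := by omega
  have hB : 8 ≤ (B0:ℝ) * ρ0 := by
    rw [div_le_iff₀ hρ00] at hB1
    refine hB1.trans (mul_le_mul_of_nonneg_right ?_ hρ00.le)
    rw [hB0]; push_cast; linarith
  set δ : ℝ := κ * min (η' / 2) (3 / 4) with hδ
  have hδ0 : 0 < δ := mul_pos hκ0 (lt_min (by positivity) (by norm_num))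
  have hδ1 : δ ≤ 1 := by
    have : min (η' / 2) (3 / 4) ≤ 3 / 4 := min_le_right _ _
    have h0 : 0 < min (η' / 2) (3 / 4) := lt_min (by positivity) (by norm_num)
    exact (mul_le_mul hκ2 this h0.le zero_le_one).trans (by norm_num)
  -- the recursion
  obtain ⟨A, hA, hrec⟩ := drec n (m + 1) K hK1 (δ := δ / 2) (by positivity) (by linarith)
  set XL : ℝ := 24 * Real.sqrt B0 + 1 with hXL
  set P0 : ℝ := 400 * A + (2 / δ) ^ 2 with hP0
  obtain ⟨c, hc, hrec⟩ := hrec P0 XL (by rw [hP0]; exact le_add_of_nonneg_right (sq_nonneg _))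
    (by rw [hXL]; have := Real.sqrt_nonneg (B0:ℝ); linarith)
  -- the number a
  set y : ℝ := δ / (8 * (m + 2)) with hy
  have hy0 : 0 < y := by positivity
  obtain ⟨a', ha'⟩ := exists_nat_ge ((24 * Real.sqrt B0 / y + 36 * Real.sqrt K / y) ^ 2)
  set a : ℕ := a' + 1 with ha
  have ha1 : 1 ≤ a := by omega
  have ha0 : (0:ℝ) < a := by exact_mod_cast ha1
  have haa : 24 * Real.sqrt (B0 / a) + 36 * Real.sqrt (K / a) ≤ y := by
    have h1 : (24 * Real.sqrt B0 / y + 36 * Real.sqrt K / y) ≤ Real.sqrt a := by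
      refine Real.le_sqrt_of_sq_le (ha'.trans ?_)
      rw [ha]; push_cast; linarith
    rw [← add_div, div_le_iff₀ hy0] at h1
    rw [Real.sqrt_div (Nat.cast_nonneg _), Real.sqrt_div (Nat.cast_nonneg _)]
    have h2 : 24 * (Real.sqrt B0 / Real.sqrt a) + 36 * (Real.sqrt K / Real.sqrt a) =
        (24 * Real.sqrt B0 + 36 * Real.sqrt K) / Real.sqrt a := by ring
    rw [h2, div_le_iff₀ (Real.sqrt_pos.2 ha0)]
    linarith
  -- the index
  set c' : ℝ := min (min c 1) (y / (a + 1)) with hc'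
  have hc'0 : 0 < c' := lt_min (lt_min hc one_pos) (by positivity)
  set e0 : ℝ := c' / (m + 1) with he0
  have he00 : 0 < e0 := by positivity
  have hev1 : ∀ᶠ k in atTop, s k ^ 2 < e0 ^ 2 :=
    hs2.tendsto_atTop_zero.eventually (gt_mem_nhds (by positivity))
  have hev2 : ∀ᶠ k in atTop, ∑' j, s (j + k) ^ 2 < c / (m + 1) ^ 2 :=
    (tendsto_sum_nat_add (fun j => s j ^ 2)).eventually (gt_mem_nhds (by positivity))
  obtain ⟨k1, hk1⟩ := eventually_atTop.1 (hev1.and hev2)
  set k0 : ℕ := k1 + 1 with hk0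
  set L0 : ℕ := 2 ^ k0 with hL0
  have hL02 : 2 ≤ L0 := by
    rw [hL0, hk0, pow_succ]
    have : 1 ≤ 2 ^ k1 := Nat.one_le_two_pow
    omega
  have hL01 : 1 ≤ L0 := by omega
  have hL00 : (0:ℝ) < L0 := by exact_mod_cast hL01
  set M : ℕ := B0 * L0 with hM
  have hM1 : 1 ≤ M := Nat.mul_pos hB01 hL01
  have hM00 : (0:ℝ) < M := by exact_mod_cast hM1
  set s' : ℕ → ℝ := fun t => (m + 1) * s (k0 + t) with hs'
  have hm1 : (0:ℝ) < (m:ℝ) + 1 := by positivity
  have hs'0 : ∀ t, 0 ≤ s' t := fun t => mul_nonneg hm1.le (hs0 _)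
  have hs'c : ∀ t, s' t ≤ c' := by
    intro t
    have h1 := (hk1 (k0 + t) (by omega)).1
    have h2 : s (k0 + t) < e0 := lt_of_pow_lt_pow_left₀ 2 he00.le h1
    rw [he0, lt_div_iff₀ hm1] at h2
    rw [hs']
    beta_reduce
    linarith
  have hs'2 : ∀ I, ∑ t ∈ Finset.range I, s' t ^ 2 ≤ c := by
    intro I
    have h1 := (hk1 k0 (by omega)).2
    have h2 : Summable fun j => s (j + k0) ^ 2 := (summable_nat_add_iff k0).2 hs2
    have h3 : ∑ t ∈ Finset.range I, s' t ^ 2 = (m + 1) ^ 2 *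
        ∑ t ∈ Finset.range I, s (t + k0) ^ 2 := by
      rw [Finset.mul_sum]
      refine Finset.sum_congr rfl fun t _ => ?_
      rw [hs']
      beta_reduce
      rw [add_comm k0 t, mul_pow]
    rw [h3]
    have h4 := (h2.sum_le_tsum (Finset.range I) fun i _ => sq_nonneg _).trans h1.le
    rw [le_div_iff₀ (by positivity)] at h4
    linarith
  -- the new data
  set β : Fin m → ℂ := fun i => (κ:ℂ) * (S k0 i p - μ i) with hβ
  set Q : ℕ → E n → Fin (m + 1) → ℂ := fun t z => sn (fun i => (κ:ℂ) * T i (k0 + t) z) 0 with hQ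
  set F : ℕ → E n → Fin (m + 1) → ℂ := fun t z =>
    sn (fun i => β i + (κ:ℂ) * (S (k0 + t) i z - S k0 i z)) ((κ:ℂ) * gf M (inner ℂ p z)) with hF
  set f : E n → Fin (m + 1) → ℂ := fun z =>
    sn (fun i => β i + (κ:ℂ) * (q i z - S k0 i z)) ((κ:ℂ) * gf M (inner ℂ p z)) with hf
  have hQc : ∀ t z i, Q t z (Fin.castSucc i) = (κ:ℂ) * T i (k0 + t) z := fun t z i => sn_c _ _ _
  have hQl : ∀ t z, Q t z (Fin.last m) = 0 := fun t z => sn_l _ _
  have hFc : ∀ t z i, F t z (Fin.castSucc i) = β i + (κ:ℂ) * (S (k0 + t) i z - S k0 i z) :=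
    fun t z i => sn_c _ _ _
  have hFl : ∀ t z, F t z (Fin.last m) = (κ:ℂ) * gf M (inner ℂ p z) := fun t z => sn_l _ _
  have hfc : ∀ z i, f z (Fin.castSucc i) = β i + (κ:ℂ) * (q i z - S k0 i z) :=
    fun z i => sn_c _ _ _
  have hfl : ∀ z, f z (Fin.last m) = (κ:ℂ) * gf M (inner ℂ p z) := fun z => sn_l _ _
  have hFs : ∀ t z j, F (t + 1) z j = F t z j + Q t z j := by
    intro t z j
    refine Fin.lastCases ?_ (fun i => ?_) j
    · rw [hFl, hFl, hQl, add_zero]
    · rw [hFc, hFc, hQc, ← add_assoc, hSs]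
      ring
  have hF0c : ∀ z i, F 0 z (Fin.castSucc i) = β i := fun z i => by
    rw [hFc, add_zero, sub_self, mul_zero, add_zero]
  have hlim : ∀ z, ‖z‖ < 1 → ∀ j, Tendsto (fun t => F t z j) atTop (𝓝 (f z j)) := by
    intro z hz j
    refine Fin.lastCases ?_ (fun i => ?_) j
    · simp_rw [hFl, hfl]
      exact tendsto_const_nhds
    · simp_rw [hFc, hfc]
      have h1 := (hSlim i z hz).comp (tendsto_add_atTop_nat k0)
      have h2 : Tendsto (fun t => S (k0 + t) i z) atTop (𝓝 (q i z)) := by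
        refine h1.congr fun t => ?_
        simp only [Function.comp]
        rw [add_comm]
      exact ((h2.sub_const _).const_mul _).const_add _
  have hpw : ∀ t, 2 ^ t * L0 = 2 ^ (k0 + t) := fun t => by rw [hL0, pow_add]; ring
  have hQg : ∀ t j, Gr (2 ^ t * L0) (K * (2 ^ t * L0)) (fun z => Q t z j) := by
    intro t j
    rw [hpw]
    refine Fin.lastCases ?_ (fun i => ?_) j
    · exact (Gr.zero _ _).congr fun z => hQl t z
    · exact ((hTg' i (k0 + t)).smul (κ:ℂ)).congr fun z => hQc t z i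
  have hκT : ∀ i t z, ‖z‖ ≤ 1 → ‖(κ:ℂ) * T i (k0 + t) z‖ ≤ s (k0 + t) := by
    intro i t z hz
    rw [norm_mul, hκn]
    exact (mul_le_of_le_one_left (norm_nonneg _) hκ2).trans (hT i (k0 + t) z hz)
  have hQs : ∀ t z, ‖z‖ ≤ 1 → nn (Q t z) ≤ s' t := by
    intro t z hz
    rw [hQ]
    beta_reduce
    rw [nn_sn_z]
    exact nn_le_comp (hs0 _) fun i => hκT i t z hz
  have hQj : ∀ j t z, ‖z‖ ≤ 1 → ‖Q t z j‖ ≤ c' := fun j t z hz =>
    (comp_le_nn _ j).trans ((hQs t z hz).trans (hs'c t))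
  have hgfb : ∀ z : E n, ‖z‖ ≤ 1 → ‖(κ:ℂ) * gf M (inner ℂ p z)‖ ≤ 2 := by
    intro z hz
    rw [norm_mul, hκn]
    exact (mul_le_of_le_one_left (norm_nonneg _) hκ2).trans (gf_le hM1 (inner_le_one' hp hz))
  have hβb : ∀ i, ‖β i‖ ≤ 1 := by
    intro i
    rw [hβ]
    beta_reduce
    rw [norm_mul, hκn]
    have h1 := hSb k0 i p hp.le
    have h2 := norm_sub_le (S k0 i p) (μ i)
    have h3 : |Mq i| + ‖μ i‖ ≤ ∑ i, (|Mq i| + ‖μ i‖) :=
      Finset.single_le_sum (f := fun i => |Mq i| + ‖μ i‖) (fun i _ => by positivity)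
        (Finset.mem_univ i)
    have h4 : ‖S k0 i p - μ i‖ ≤ (m + 1) * M0 + 2 := by
      have h5 : ‖S k0 i p - μ i‖ ≤ M0 := by
        rw [hM0]
        have := abs_nonneg (Mq i)
        linarith
      have h6 : M0 ≤ (m + 1) * M0 := by
        have : 0 ≤ (m:ℝ) * M0 := by positivity
        linarith
      linarith
    calc κ * ‖S k0 i p - μ i‖ ≤ κ * ((m + 1) * M0 + 2) := mul_le_mul_of_nonneg_left h4 hκ0.le
      _ = 1 := hκ1
  have hgfg : Gr 0 M (fun z : E n => (κ:ℂ) * gf M (inner ℂ p z)) := by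
    have h1 : Gr 0 M (fun z : E n => ∑ k ∈ Finset.range M, cf M k (inner ℂ p z)) :=
      Gr.sum _ fun k hk => Gr.single (Hm.cfi M k p) (Nat.zero_le _) (Finset.mem_range.1 hk).le
    exact (h1.smul (κ:ℂ)).congr fun z => by rw [cf_sum hM1]
  have hF0g : ∀ j, Gr 0 M (fun z => F 0 z j) := by
    intro j
    refine Fin.lastCases ?_ (fun i => ?_) j
    · exact hgfg.congr fun z => hFl 0 z
    · exact (Gr.single (k := 0) (Hm.const (β i)) le_rfl (Nat.zero_le _)).congr fun z => hF0c z i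
  have hF0b : ∀ j z, ‖z‖ ≤ 1 → ‖F 0 z j‖ ≤ 2 := by
    intro j z hz
    refine Fin.lastCases ?_ (fun i => ?_) j
    · rw [hFl]; exact hgfb z hz
    · rw [hF0c]; linarith [hβb i]
  -- lower and upper bounds of f
  have hfup : ∀ z, ‖z‖ < 1 → nn (f z) ≤ 1 := by
    intro z hz
    have e : f z = fun j => (κ:ℂ) * sn (fun i => (S k0 i p - μ i) + (q i z - S k0 i z))
        (gf M (inner ℂ p z)) j := by
      funext j
      refine Fin.lastCases ?_ (fun i => ?_) j
      · rw [hfl, sn_l]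
      · rw [hfc, sn_c, hβ]
        ring
    rw [e, Mix.nn_smul, hκn]
    have h1 : nn (sn (fun i => (S k0 i p - μ i) + (q i z - S k0 i z)) (gf M (inner ℂ p z))) ≤
        (m + 1) * M0 + 2 := by
      refine Pool.Agent.K9h23.Lac.nn_le_of (by positivity) ?_
      rw [nsq_sn, ← nn_sq]
      have h2 : nn (fun i => (S k0 i p - μ i) + (q i z - S k0 i z)) ≤ (m + 1) * M0 := by
        refine nn_le_comp (by linarith) fun i => ?_
        have h3 := hSb k0 i p hp.le
        have h4 := hSb k0 i z hz.le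
        have h5 := hMq i z (mem_ball_zero_iff.2 hz)
        have h6 := norm_add_le (S k0 i p - μ i) (q i z - S k0 i z)
        have h7 := norm_sub_le (S k0 i p) (μ i)
        have h8 := norm_sub_le (q i z) (S k0 i z)
        have h9 : |Mq i| + ‖μ i‖ ≤ ∑ i, (|Mq i| + ‖μ i‖) :=
          Finset.single_le_sum (f := fun i => |Mq i| + ‖μ i‖) (fun i _ => by positivity)
            (Finset.mem_univ i)
        have h10 := le_abs_self (Mq i)
        rw [hM0]
        linarith
      have h3 := gf_le hM1 (inner_le_one' hp hz.le)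
      have h4 := nn_nonneg (fun i => (S k0 i p - μ i) + (q i z - S k0 i z))
      have h5 := norm_nonneg (gf M (inner ℂ p z))
      have h6 : 0 ≤ ((m:ℝ) + 1) * M0 := by positivity
      exact sq_add_two h4 h2 h5 h3
    calc κ * nn (sn (fun i => (S k0 i p - μ i) + (q i z - S k0 i z)) (gf M (inner ℂ p z))) ≤
          κ * ((m + 1) * M0 + 2) := mul_le_mul_of_nonneg_left h1 hκ0.le
      _ = 1 := hκ1
  have hSg : ∀ i, Gr 0 (K * L0) (S k0 i) := by
    intro i
    have h1 : ∀ k, k ≤ k0 → Gr 0 (K * L0) (S k i) := by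
      intro k
      induction k with
      | zero =>
        intro _
        refine (Gr.single (k := 0) (Hm.const (q i 0)) le_rfl (Nat.zero_le _)).congr fun z => ?_
        rw [hS]; simp
      | succ k ih =>
        intro hk
        have h2 := (ih (by omega)).add ((hTg' i k).mono (Nat.zero_le _)
          (Nat.mul_le_mul_left K (Nat.pow_le_pow_right (by norm_num) (by omega : k ≤ k0))))
        exact h2.congr fun z => hSs k i z
    exact h1 k0 le_rfl
  have hflow : ∀ z, ‖z‖ < 1 → δ ≤ nn (f z) := by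
    intro z hz
    rcases lt_or_ge (L0 * ‖1 - (inner ℂ p z : ℂ)‖) ρ0 with h | h
    · have h1 : ‖1 - (inner ℂ p z : ℂ)‖ < ρ0 := by
        have : 1 * ‖1 - (inner ℂ p z : ℂ)‖ ≤ L0 * ‖1 - (inner ℂ p z : ℂ)‖ :=
          mul_le_mul_of_nonneg_right (by exact_mod_cast hL01) (norm_nonneg _)
        linarith
      have hzp : ‖z - p‖ < ρ := by
        have h2 : ‖z - p‖ ^ 2 = ‖z‖ ^ 2 - 2 * (inner ℂ z p : ℂ).re + ‖p‖ ^ 2 := by
          have := @norm_sub_sq ℂ (E n) _ _ _ z p
          simpa using this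
        have h3 : (inner ℂ z p : ℂ).re = (inner ℂ p z : ℂ).re := by
          rw [← inner_conj_symm, Complex.conj_re]
        have h4 := Complex.re_le_norm (1 - (inner ℂ p z : ℂ))
        rw [Complex.sub_re, Complex.one_re] at h4
        have h5 : ‖z - p‖ ^ 2 < ρ ^ 2 := by
          rw [h2, h3, hp]
          have h6 : ρ0 ≤ ρ ^ 2 / 2 := min_le_left _ _
          have h7 : ‖z‖ ^ 2 ≤ 1 := pow_le_one₀ (norm_nonneg _) hz.le
          linarith
        exact lt_of_pow_lt_pow_left₀ 2 hρ.le h5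
      have h2 := hlow' z hz hzp
      have h3 : nn (fun i => S k0 i p - S k0 i z) ≤ η' / 2 := by
        refine (nn_le_comp (η := 12 * X * Real.sqrt (K * L0 * ‖1 - (inner ℂ p z : ℂ)‖))
          (by positivity) fun i => ?_).trans ?_
        · have h4 := Gr.lip (D := K * L0) (Nat.mul_pos hK1 hL01) (hSg i) (A := X) (by linarith)
            (fun z hz => hSb k0 i z hz) hp hz.le
          rw [norm_sub_rev]
          refine h4.trans (le_of_eq ?_)
          push_cast
          ring_nf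
        · have h4 : Real.sqrt (K * L0 * ‖1 - (inner ℂ p z : ℂ)‖) ≤ Real.sqrt K * x := by
            rw [mul_assoc, Real.sqrt_mul (Nat.cast_nonneg _)]
            refine mul_le_mul_of_nonneg_left ?_ (Real.sqrt_nonneg _)
            have h5 : Real.sqrt (x ^ 2) = x := Real.sqrt_sq hx0.le
            rw [← h5]
            exact Real.sqrt_le_sqrt (h.le.trans (min_le_right _ _))
          have h5 : (m + 1) * (12 * X * (Real.sqrt K * x)) = η' / 2 := by
            rw [hx]
            field_simp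
            ring
          rw [← h5]
          gcongr
      have h4 : κ * nn (fun i => (S k0 i p - S k0 i z) + (q i z - μ i)) ≤ nn (f z) := by
        have e : nn (fun i => β i + (κ:ℂ) * (q i z - S k0 i z)) ≤ nn (f z) := nn_sn_l _ _
        have e2 : (fun i => β i + (κ:ℂ) * (q i z - S k0 i z)) =
            fun i => (κ:ℂ) * ((S k0 i p - S k0 i z) + (q i z - μ i)) := by
          funext i
          rw [hβ]
          ring
        rw [e2, Mix.nn_smul, hκn] at e
        exact e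
      have h5 : nn (fun i => q i z - μ i) ≤ nn (fun i => (S k0 i p - S k0 i z) + (q i z - μ i)) +
          nn (fun i => S k0 i p - S k0 i z) := by
        refine le_trans (le_of_eq ?_) (nn_sub_le _ _)
        congr 1
        funext i
        ring
      refine le_trans ?_ h4
      refine mul_le_mul_of_nonneg_left ((min_le_left _ _).trans ?_) hκ0.le
      linarith
    · have h1 : 8 ≤ (M:ℝ) * ‖1 - (inner ℂ p z : ℂ)‖ := by
        rw [hM, Nat.cast_mul, mul_assoc]
        exact hB.trans (mul_le_mul_of_nonneg_left h (Nat.cast_nonneg _))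
      have h2 := gf_far hM1 (inner_le_one' hp hz.le) h1
      have h3 := comp_le_nn (f z) (Fin.last m)
      rw [hfl, norm_mul, hκn] at h3
      refine le_trans ?_ h3
      exact mul_le_mul_of_nonneg_left ((min_le_right _ _).trans h2) hκ0.le
  -- bounds of the partial sums
  have hFb : ∀ t z, ‖z‖ ≤ 1 → δ / 2 ≤ nn (F t z) ∧ nn (F t z) ≤ 2 := by
    intro t z hz
    have h1 : ∀ j, ‖((rr a t L0 : ℝ) : ℂ) • z‖ < 1 ∧
        ‖F t z j - f (((rr a t L0 : ℝ) : ℂ) • z) j‖ ≤
          12 * 2 * Real.sqrt (B0 / a) + 36 * c' * Real.sqrt (K / a) + c' * (a + 1) := fun j =>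
      par (K := K) (B0 := B0) (M := M) (L0 := L0) hK1 hM1 hL01 le_rfl (b := 2) (σ := c')
        (F := fun t z => F t z j) (Q := fun t z => Q t z j) (f := fun z => f z j)
        (by norm_num) hc'0.le (hF0g j) (hF0b j) (fun t => hQg t j) (hQj j)
        (fun t z => hFs t z j) (fun z hz => hlim z hz j) ha1 t hz
    set w : E n := ((rr a t L0 : ℝ) : ℂ) • z with hw
    have hw1 : ‖w‖ < 1 := (h1 0).1
    have h2 : nn (fun j => F t z j - f w j) ≤ δ / 4 := by
      refine (nn_le_comp (η := 2 * y) (by positivity) fun j => (h1 j).2.trans ?_).trans ?_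
      · have h3 : c' * (a + 1) ≤ y := by
          have : c' ≤ y / (a + 1) := min_le_right _ _
          rwa [le_div_iff₀ (by positivity)] at this
        have h4 : c' ≤ 1 := (min_le_left _ _).trans (min_le_right _ _)
        have h5 : 36 * c' * Real.sqrt (K / a) ≤ 36 * Real.sqrt (K / a) := by
          exact mul_le_mul_of_nonneg_right (by linarith) (Real.sqrt_nonneg _)
        linarith
      · rw [hy]
        push_cast
        have : ((m:ℝ) + 1 + 1) * (2 * (δ / (8 * (m + 2)))) = δ / 4 := by field_simp; ring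
        rw [this]
    have h3 := hflow w hw1
    have h4 := hfup w hw1
    have h5 := nn_sub_le (fun j => F t z j - f w j) (F t z)
    have e5 : nn (fun j => (F t z j - f w j) - F t z j) = nn (f w) := by
      have : (fun j => (F t z j - f w j) - F t z j) = fun j => -f w j := by funext j; ring
      rw [this, nn_neg']
    rw [e5] at h5
    have h6 := nn_add_le (fun j => F t z j - f w j) (f w)
    have e6 : (fun j => (F t z j - f w j) + f w j) = F t z := by funext j; ring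
    rw [e6] at h6
    constructor
    · linarith
    · linarith
  -- the start
  have hgf1 : gf M (inner ℂ p p) = 0 := by
    have e : (inner ℂ p p : ℂ) = 1 := by
      rw [inner_self_eq_norm_sq_to_K, hp]; norm_num
    rw [e]
    have h1 := gf_near hM1 (w := 1) (by simp)
    rw [sub_self, norm_zero, mul_zero] at h1
    exact norm_le_zero_iff.1 h1
  have hF0 : ∀ z, F 0 z = sn β ((κ:ℂ) * gf M (inner ℂ p z)) := fun z =>
    sn_ext (fun i => hF0c z i) (hFl 0 z)
  have hβl : δ / 2 ≤ nn β := by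
    have h1 := (hFb 0 p hp.le).1
    rw [hF0, hgf1, mul_zero, nn_sn_z] at h1
    exact h1
  have hnβ : 0 < nsq β := by
    rw [← nn_sq]
    have : 0 < nn β := by linarith
    positivity
  set h0 : E n → Fin (m + 1) → ℂ := fun _ =>
    sn (fun j => (nsq β : ℂ)⁻¹ * starRingEnd ℂ (β j)) 0 with hh0
  have hl0e : Real.sqrt (((2 ^ 0 * L0 : ℕ)) : ℝ) = Real.sqrt L0 := by rw [pow_zero, one_mul]
  obtain ⟨g, g1, g2, g3⟩ := hrec s' (fun t => 2 ^ t * L0) F Q f
    ⟨hs'0, hQs, fun t => by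
        exact hL02.trans (Nat.le_mul_of_pos_left _ (by positivity)), fun t => by rw [pow_succ]; exact le_of_eq (by ring), fun t => by
        exact (Nat.lt_two_pow_self.le : t ≤ 2 ^ t).trans
          (Nat.le_mul_of_pos_right _ (by omega)), hQg, hFs, hFb⟩
    (fun t => (hs'c t).trans ((min_le_left _ _).trans (min_le_left _ _))) hs'2 hlim
    (fun j => by
      refine (Lc.of_gr hM1 (hF0g j) (by norm_num) (hF0b j)).mono le_rfl ?_
      rw [hl0e, hM]
      push_cast
      rw [Real.sqrt_mul (Nat.cast_nonneg _), hXL]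
      have h9 := Real.sqrt_nonneg (L0:ℝ)
      calc 12 * 2 * (Real.sqrt B0 * Real.sqrt L0) = 24 * Real.sqrt B0 * Real.sqrt L0 := by ring
        _ ≤ _ := mul_le_mul_of_nonneg_right (le_add_of_nonneg_right zero_le_one) h9) h0
    (fun j => ⟨‖h0 0 j‖, (Lc.const (h0 0 j)).mono le_rfl (by
      have : 0 ≤ XL := by rw [hXL]; positivity
      positivity)⟩)
    (fun z hz => by
      rw [hF0, hh0]
      beta_reduce
      rw [bd_sn, mul_zero, add_zero]
      unfold bd
      have h1 : ∀ j ∈ (Finset.univ : Finset (Fin m)), β j *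
          ((nsq β : ℂ)⁻¹ * starRingEnd ℂ (β j)) =
          (nsq β : ℂ)⁻¹ * (β j * starRingEnd ℂ (β j)) := fun j _ => by ring
      rw [Finset.sum_congr rfl h1, ← Finset.mul_sum, ← nsq_c, inv_mul_cancel₀]
      exact_mod_cast hnβ.ne')
    (fun z hz => by
      have h1 : nsq (h0 z) ≤ (2 / δ) ^ 2 := by
        rw [hh0]
        beta_reduce
        rw [nsq_sn, norm_zero, nsq_smul', nsq_conj, norm_inv, Complex.norm_real,
          Real.norm_of_nonneg hnβ.le]
        have e3 : ((nsq β)⁻¹) ^ 2 * nsq β + 0 ^ 2 = 1 / nsq β := by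
          field_simp
          ring
        rw [e3]
        have e4 : (δ / 2) ^ 2 ≤ nsq β := by
          rw [← nn_sq]
          exact pow_le_pow_left₀ (by positivity) hβl 2
        calc 1 / nsq β ≤ 1 / (δ / 2) ^ 2 := one_div_le_one_div_of_le (by positivity) e4
          _ = (2 / δ) ^ 2 := by field_simp
      have h2 : Real.exp (-(A * nsq (F 0 z))) ≤ 1 := by
        rw [Real.exp_le_one_iff]
        exact neg_nonpos.2 (mul_nonneg (by linarith) (nsq_nonneg _))
      calc nsq (h0 z) * Real.exp (-(A * nsq (F 0 z))) ≤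
            nsq (h0 z) * 1 := mul_le_mul_of_nonneg_left h2 (nsq_nonneg _)
        _ ≤ P0 := by rw [hP0]; linarith)
  set C' : ℝ := P0 * Real.exp 1 * Real.exp (4 * A) with hC'
  have hnn : ∀ z : E n, ‖z‖ < 1 → nn (fun j => g j z.ofLp) ≤ Real.sqrt C' := fun z hz =>
    Real.sqrt_le_sqrt (g2 _ (ball_ofLp hz))
  have hgj : ∀ j, ∀ z : E n, ‖z‖ < 1 → ‖g j z.ofLp‖ ≤ Real.sqrt C' := fun j z hz =>
    (comp_le_nn (fun j => g j z.ofLp) j).trans (hnn z hz)
  have hC0 := Real.sqrt_nonneg C'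
  -- near p
  set φ : E n → ℝ := fun z => ∑ i, ‖S k0 i z - S k0 i p‖ + ‖gf M (inner ℂ p z)‖ with hφ
  have hgfc : Continuous (fun z : E n => gf M (inner ℂ p z)) := by
    unfold gf
    fun_prop
  have hφc : Continuous φ :=
    (continuous_finsetSum _ fun i _ => ((hSd k0 i).continuous.sub continuous_const).norm).add
      hgfc.norm
  have hφp : φ p = 0 := by
    rw [hφ]
    beta_reduce
    rw [hgf1]
    simp
  obtain ⟨ρ', hρ', hnear⟩ := Metric.continuous_iff.1 hφc p (1 / (2 * (Real.sqrt C' + 1)))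
    (by positivity)
  refine ⟨fun j z => (κ:ℂ) * g j.castSucc z.ofLp, fun j => ?_, ⟨Real.sqrt C', fun j z hz => ?_⟩,
    ρ', hρ', fun z hz hzp => ?_⟩
  · have h1 : DifferentiableOn ℂ (fun z : E n => g j.castSucc z.ofLp) (ball 0 1) := by
      refine (g1 j.castSucc).comp
        ((PiLp.continuousLinearEquiv 2 ℂ (fun _ : Fin n => ℂ))).differentiable.differentiableOn ?_
      intro z hz
      exact ball_ofLp (mem_ball_zero_iff.1 hz)
    exact h1.const_mul _
  · beta_reduce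
    rw [mem_ball_zero_iff] at hz
    rw [norm_mul, hκn]
    exact (mul_le_of_le_one_left (norm_nonneg _) hκ2).trans (hgj j.castSucc z hz)
  · have h1 := g3 _ (ball_ofLp hz)
    have e : (WithLp.toLp 2 z.ofLp : E n) = z := rfl
    rw [e, Fin.sum_univ_castSucc, hfl] at h1
    simp_rw [hfc] at h1
    have h2 : ∑ i, (q i z - μ i) * ((κ:ℂ) * g i.castSucc z.ofLp) - 1 =
        (κ:ℂ) * (∑ i, (S k0 i z - S k0 i p) * g i.castSucc z.ofLp -
          gf M (inner ℂ p z) * g (Fin.last m) z.ofLp) := by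
      rw [← h1, mul_sub, Finset.mul_sum, ← sub_sub, ← Finset.sum_sub_distrib]
      congr 1
      · refine Finset.sum_congr rfl fun i _ => ?_
        rw [hβ]
        ring
      · ring
    rw [h2, norm_mul, hκn]
    have h3 : ‖∑ i, (S k0 i z - S k0 i p) * g i.castSucc z.ofLp -
          gf M (inner ℂ p z) * g (Fin.last m) z.ofLp‖ ≤ φ z * Real.sqrt C' := by
      refine (norm_sub_le _ _).trans ?_
      rw [hφ]
      beta_reduce
      rw [add_mul, Finset.sum_mul, norm_mul]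
      refine add_le_add ((norm_sum_le _ _).trans (Finset.sum_le_sum fun i _ => ?_)) ?_
      · rw [norm_mul]
        exact mul_le_mul_of_nonneg_left (hgj _ z hz) (norm_nonneg _)
      · exact mul_le_mul_of_nonneg_left (hgj _ z hz) (norm_nonneg _)
    have h4 := hnear z (by rw [dist_eq_norm]; exact hzp)
    rw [Real.dist_eq, hφp, sub_zero] at h4
    have h5 := (le_abs_self (φ z)).trans h4.le
    have h6 : φ z * Real.sqrt C' ≤ 1 / (2 * (Real.sqrt C' + 1)) * (Real.sqrt C' + 1) :=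
      mul_le_mul h5 (by linarith) hC0 (by positivity)
    have h7 : 1 / (2 * (Real.sqrt C' + 1)) * (Real.sqrt C' + 1) = 1 / 2 := by field_simp
    exact (mul_le_of_le_one_left (norm_nonneg _) hκ2).trans ((h3.trans h6).trans h7.le)

end Pool.Agent.K9h23.Din
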