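import Mathlib
import Pool.Agent.K9h23.Din.Loc
import Pool.Agent.K9h23.Big.Alg2

/-!
Characters of `H^∞(B)` and functions with square summable dyadic pieces: the algebra generated.
-/

set_option autoImplicit false
set_option linter.unusedSectionVars false

open Metric Set Filter Topology Complex

namespace Pool.Agent.K9h23.Din

open Pool.Agent.K9h23.Hom (E)
open Pool.Agent.Y263.LF (Hb evH evH_le Hb_ext mkH SR CA Tup alg_ct base_point exists_char linH)
open Pool.Agent.Y263.GF (SF tup_SF lin_SF)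
open Pool.Agent.K9h23.Qc (nr Base small self_mem le_nr nr_nhdsWithin BH adj_BH)

open Pool.Agent.K9h23.Big (heva hφa)

variable {n : ℕ}

/-- the elements of `H^∞` with square summable dyadic pieces -/
def ID (n : ℕ) : Set (Hb (E n)) :=
  {q | ∃ f : E n → ℂ, InD f ∧ ∀ z : ball (0 : E n) 1, evH z q = f z}

theorem joint_bl {φ : WeakDual.characterSpace ℂ (Hb (E n))} {p : E n} (hp : ‖p‖ = 1)
    (hB : Base φ p) (T : Finset (Hb (E n))) (hT : ∀ q ∈ T, q ∈ ID n) :
    ∃ ℱ : Filter (ball (0 : E n) 1), ℱ.NeBot ∧ ℱ ≤ nr p ∧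
      ∀ q ∈ T, Tendsto (fun z => evH z q) ℱ (𝓝 (φ q)) := by
  classical
  set t : ball (0 : E n) 1 → ℝ := fun z => ∑ q ∈ T, ‖evH z q - φ q‖ with ht
  have ht0 : ∀ z, 0 ≤ t z := fun z => Finset.sum_nonneg fun q _ => norm_nonneg _
  refine ⟨nr p ⊓ comap t (𝓝 0), ?_, inf_le_left, fun q hq => ?_⟩
  · rw [Filter.inf_neBot_iff]
    intro A hA Y hY
    obtain ⟨U, hU, hUY⟩ := hY
    obtain ⟨ε, hε, hεU⟩ := Metric.mem_nhds_iff.1 hU
    by_contra hcon
    have hlow : ∀ z ∈ A, ε ≤ t z := by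
      intro z hz
      by_contra h
      push Not at h
      exact hcon ⟨z, hz, hUY (hεU (by
        rw [mem_ball_zero_iff, Real.norm_of_nonneg (ht0 z)]
        exact h))⟩
    obtain ⟨V, hV, hVA⟩ := hA
    obtain ⟨ρ, hρ, hρV⟩ := Metric.mem_nhds_iff.1 hV
    -- the functions
    set e := T.equivFin.symm with he
    have hf : ∀ i : Fin T.card, ∃ f : E n → ℂ, InD f ∧
        ∀ z : ball (0 : E n) 1, evH z (e i : Hb (E n)) = f z := fun i => hT _ (e i).2
    choose f hf1 hf2 using hf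
    have hts : ∀ z : ball (0 : E n) 1, t z = ∑ i, ‖f i z - φ (e i : Hb (E n))‖ := by
      intro z
      have h1 : ∀ i, ‖f i z - φ (e i : Hb (E n))‖ =
          (fun q : Hb (E n) => ‖evH z q - φ q‖) (e i) := fun i => by
        beta_reduce
        rw [hf2]
      simp_rw [h1]
      rw [ht]
      beta_reduce
      rw [← Finset.sum_coe_sort T (fun q => ‖evH z q - φ q‖)]
      exact (Equiv.sum_comp e (fun q : T => ‖evH z (q : Hb (E n)) - φ (q : Hb (E n))‖)).symm
    obtain ⟨G, hGd, ⟨C, hGb⟩, ρ', hρ', hG⟩ := dio_local f hf1 (fun i => φ (e i : Hb (E n))) hp hρ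
      hε (fun z hz hzp => by
        have h1 := hts ⟨z, mem_ball_zero_iff.2 hz⟩
        rw [← h1]
        refine hlow _ (hVA ?_)
        refine hρV ?_
        rw [mem_ball, dist_eq_norm]
        exact hzp)
    set k : Hb (E n) := ∑ i, ((e i : Hb (E n)) - algebraMap ℂ (Hb (E n)) (φ (e i : Hb (E n)))) *
      mkH (G i) (hGd i) C (hGb i) - 1 with hk
    have hev : ∀ᶠ z : ball (0 : E n) 1 in nr p, ‖(z : E n) - p‖ < ρ' := by
      rw [nr, eventually_comap]
      filter_upwards [Metric.ball_mem_nhds p hρ'] with z hz w hw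
      rw [hw]
      rwa [mem_ball, dist_eq_norm] at hz
    have h1 : ‖φ k‖ ≤ 1 / 2 := by
      refine small hB ?_
      filter_upwards [hev] with z hz
      have e1 : evH z k = ∑ i, (f i z - φ (e i : Hb (E n))) * G i z - 1 := by
        rw [hk, map_sub, map_sum, map_one]
        congr 1
        refine Finset.sum_congr rfl fun i _ => ?_
        rw [map_mul, map_sub, heva, hf2]
        rfl
      rw [e1]
      exact hG z (mem_ball_zero_iff.1 z.2) hz
    have h2 : φ k = -1 := by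
      rw [hk, map_sub, map_sum, map_one, Finset.sum_eq_zero, zero_sub]
      intro i _
      rw [map_mul, map_sub, hφa, sub_self, zero_mul]
    rw [h2, norm_neg, norm_one] at h1
    norm_num at h1
  · have h4 : Tendsto t (nr p ⊓ comap t (𝓝 0)) (𝓝 0) := tendsto_iff_comap.2 inf_le_right
    have h5 : Tendsto (fun z => ‖evH z q - φ q‖) (nr p ⊓ comap t (𝓝 0)) (𝓝 0) := by
      refine squeeze_zero (fun z => norm_nonneg _) (fun z => ?_) h4
      exact Finset.single_le_sum (f := fun q => ‖evH z q - φ q‖) (fun _ _ => norm_nonneg _) hq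
    rw [← tendsto_sub_nhds_zero_iff]
    exact tendsto_zero_iff_norm_tendsto_zero.2 h5

/-- elements of the algebra depend on finitely many generators -/
theorem fin_dep2 {φ : WeakDual.characterSpace ℂ (Hb (E n))} {v : Hb (E n)}
    (hv : v ∈ Algebra.adjoin ℂ (ID n)) :
    ∃ T : Finset (Hb (E n)), (∀ q ∈ T, q ∈ ID n) ∧ ∀ ℱ : Filter (ball (0 : E n) 1),
      (∀ q ∈ T, Tendsto (fun z => evH z q) ℱ (𝓝 (φ q))) →
      Tendsto (fun z => evH z v) ℱ (𝓝 (φ v)) := by
  classical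
  induction hv using Algebra.adjoin_induction with
  | mem x hx => exact ⟨{x}, by simpa using hx, fun ℱ h2 => h2 x (by simp)⟩
  | algebraMap r =>
    refine ⟨∅, by simp, fun ℱ _ => ?_⟩
    simp only [heva, hφa]
    exact tendsto_const_nhds
  | add x y _ _ hx hy =>
    obtain ⟨T1, t1, t2⟩ := hx
    obtain ⟨T2, s1, s2⟩ := hy
    refine ⟨T1 ∪ T2, ?_, fun ℱ h2 => ?_⟩
    · intro q hq
      rcases Finset.mem_union.1 hq with h | h
      · exact t1 q h
      · exact s1 q h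
    · have := (t2 ℱ fun q hq => h2 q (Finset.mem_union_left _ hq)).add
        (s2 ℱ fun q hq => h2 q (Finset.mem_union_right _ hq))
      simpa [map_add] using this
  | mul x y _ _ hx hy =>
    obtain ⟨T1, t1, t2⟩ := hx
    obtain ⟨T2, s1, s2⟩ := hy
    refine ⟨T1 ∪ T2, ?_, fun ℱ h2 => ?_⟩
    · intro q hq
      rcases Finset.mem_union.1 hq with h | h
      · exact t1 q h
      · exact s1 q h
    · have := (t2 ℱ fun q hq => h2 q (Finset.mem_union_left _ hq)).mul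
        (s2 ℱ fun q hq => h2 q (Finset.mem_union_right _ hq))
      simpa [map_mul] using this

/-- **Local criterion.** -/
theorem crit2 {N : ℕ} (F : Fin N → Hb (E n)) (h0 : ∀ z, ∃ j, evH z (F j) ≠ 0)
    (hp : ∀ p : E n, ‖p‖ = 1 → ∃ (S : Finset (Fin N)) (c : ℝ), 0 < c ∧
      (∀ᶠ z in nr p, c ≤ ∑ j ∈ S, ‖evH z (F j)‖) ∧
      ∀ ε : ℝ, 0 < ε →
        ∀ j ∈ S, ∃ v ∈ Algebra.adjoin ℂ (ID n),
          ∀ᶠ z in nr p, ‖evH z (F j) - evH z v‖ ≤ ε) :
    ∃ g : Fin N → Hb (E n), ∑ j, F j * g j = 1 := by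
  classical
  by_contra hno
  obtain ⟨φ, hφ⟩ := exists_char F hno
  obtain ⟨p, hp1, hB⟩ := base_point (tup_SF (X := E n)) (lin_SF (X := E n)) φ
  rcases lt_or_eq_of_le hp1 with hlt | heq
  · have hpb : p ∈ ball (0 : E n) 1 := mem_ball_zero_iff.2 hlt
    obtain ⟨j, hj⟩ := h0 ⟨p, hpb⟩
    apply hj
    obtain ⟨ℱ, hne, hz, ha⟩ := hB (F j)
    have h1 := ha _ (self_mem (F j))
    rw [hφ j] at h1
    have h2 : Tendsto (fun z : ball (0 : E n) 1 => evH z (F j)) ℱ (𝓝 (evH ⟨p, hpb⟩ (F j))) := by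
      have h3 : Tendsto (fun z : ball (0 : E n) 1 => z) ℱ (𝓝 (⟨p, hpb⟩ : ball (0 : E n) 1)) := by
        rw [tendsto_subtype_rng]
        exact hz
      exact ((F j : BoundedContinuousFunction (ball (0 : E n) 1) ℂ).continuous.tendsto _).comp h3
    exact tendsto_nhds_unique h2 h1
  · obtain ⟨S, c, hc, hlow, hS⟩ := hp p heq
    set ε : ℝ := c / (8 * (S.card + 1)) with hε
    have hε0 : 0 < ε := by positivity
    replace hS := hS ε hε0
    choose! v hv1 hv2 using hS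
    have hfd : ∀ j ∈ S, _ := fun j hj => fin_dep2 (φ := φ) (hv1 j hj)
    choose! T hT1 hT2 using hfd
    obtain ⟨ℱ, hne, hz, h2⟩ := joint_bl heq hB (S.biUnion T) (fun q hq => by
      obtain ⟨j, hj, hq2⟩ := Finset.mem_biUnion.1 hq
      exact hT1 j hj q hq2)
    have h3 : ∀ j ∈ S, Tendsto (fun z => evH z (v j)) ℱ (𝓝 (φ (v j))) := fun j hj =>
      hT2 j hj ℱ fun q hq => h2 q (Finset.mem_biUnion.2 ⟨j, hj, hq⟩)
    have h4 : ∀ j ∈ S, ‖φ (v j)‖ ≤ ε := by
      intro j hj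
      have h5 : ‖φ (F j - v j)‖ ≤ ε := small hB (by
        filter_upwards [hv2 j hj] with z hz2
        rw [map_sub]
        exact hz2)
      rw [map_sub, hφ j, zero_sub, norm_neg] at h5
      exact h5
    have h5 : ∀ᶠ z in ℱ, ∀ j ∈ S, ‖evH z (F j)‖ ≤ 3 * ε := by
      rw [Filter.eventually_all_finset]
      intro j hj
      have h6 := h3 j hj
      rw [Metric.tendsto_nhds] at h6
      filter_upwards [h6 ε hε0, hz (hv2 j hj)] with z h7 h8
      rw [dist_eq_norm] at h7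
      have e : evH z (F j) = (evH z (F j) - evH z (v j)) + (evH z (v j) - φ (v j)) + φ (v j) := by
        ring
      calc ‖evH z (F j)‖ = ‖(evH z (F j) - evH z (v j)) + (evH z (v j) - φ (v j)) + φ (v j)‖ := by
            rw [← e]
        _ ≤ ‖evH z (F j) - evH z (v j)‖ + ‖evH z (v j) - φ (v j)‖ + ‖φ (v j)‖ := norm_add₃_le
        _ ≤ 3 * ε := by linarith [h4 j hj]
    obtain ⟨z, hz1, hz2⟩ := (h5.and (hz hlow)).exists
    have h6 : ∑ j ∈ S, ‖evH z (F j)‖ ≤ ∑ _j ∈ S, 3 * ε := Finset.sum_le_sum hz1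
    rw [Finset.sum_const, nsmul_eq_mul] at h6
    have h7 : (S.card : ℝ) * (3 * ε) < c := by
      have hS0 : (0 : ℝ) ≤ S.card := Nat.cast_nonneg _
      calc (S.card : ℝ) * (3 * ε) ≤ (S.card + 1) * (3 * ε) := by gcongr; linarith
        _ = 3 / 8 * c := by rw [hε]; field_simp
        _ < c := by linarith
    linarith

/-- passage to elements of `H^∞` -/
theorem adj2 {v : E n → ℂ} (hv : v ∈ Algebra.adjoin ℂ {q : E n → ℂ | InD q}) :
    ∃ v' ∈ Algebra.adjoin ℂ (ID n), ∀ z : ball (0 : E n) 1, evH z v' = v z := by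
  induction hv using Algebra.adjoin_induction with
  | mem x hx =>
    obtain ⟨hd, M, hM⟩ := hx.1
    exact ⟨mkH x hd M hM, Algebra.subset_adjoin ⟨x, hx, fun z => rfl⟩, fun z => rfl⟩
  | algebraMap r =>
    refine ⟨algebraMap ℂ _ r, Subalgebra.algebraMap_mem _ r, fun z => ?_⟩
    rw [heva]
    rfl
  | add x y _ _ hx hy =>
    obtain ⟨x', h1, h2⟩ := hx
    obtain ⟨y', h3, h4⟩ := hy
    exact ⟨x' + y', Subalgebra.add_mem _ h1 h3, fun z => by rw [map_add, h2, h4]; rfl⟩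
  | mul x y _ _ hx hy =>
    obtain ⟨x', h1, h2⟩ := hx
    obtain ⟨y', h3, h4⟩ := hy
    exact ⟨x' * y', Subalgebra.mul_mem _ h1 h3, fun z => by rw [map_mul, h2, h4]; rfl⟩

/-- **The local criterion.** -/
theorem criterion2 {N : ℕ} (f : Fin N → E n → ℂ) (hf : ∀ j, BH (f j))
    (h0 : ∀ z ∈ ball (0 : E n) 1, ∃ j, f j z ≠ 0)
    (hloc : ∀ p : E n, ‖p‖ = 1 → ∃ (T : Finset (Fin N)) (c : ℝ), 0 < c ∧
      (∀ᶠ z in 𝓝[ball 0 1] p, c ≤ ∑ j ∈ T, ‖f j z‖) ∧
      ∀ ε : ℝ, 0 < ε →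
        ∀ j ∈ T, ∃ v ∈ Algebra.adjoin ℂ {q : E n → ℂ | InD q},
          ∀ᶠ z in 𝓝[ball 0 1] p, ‖f j z - v z‖ ≤ ε) :
    ∃ g : Fin N → E n → ℂ, (∀ j, BH (g j)) ∧
      ∀ z ∈ ball (0 : E n) 1, ∑ j, f j z * g j z = 1 := by
  choose hfd Mf hMf using hf
  obtain ⟨g, hg⟩ := crit2 (fun j => mkH (f j) (hfd j) (Mf j) (hMf j)) (fun z => h0 z z.2) (by
    intro p hp
    obtain ⟨S, c, hc, h1, h2⟩ := hloc p hp
    refine ⟨S, c, hc, ?_, ?_⟩
    · rw [nr_nhdsWithin] at h1
      exact h1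
    · intro ε hε
      intro j hj
      obtain ⟨v, hv, hv2⟩ := h2 ε hε j hj
      obtain ⟨v', hv', hvv⟩ := adj2 hv
      refine ⟨v', hv', ?_⟩
      rw [nr_nhdsWithin] at hv2
      filter_upwards [hv2] with z hz
      rw [hvv]
      exact hz)
  have hrep : ∀ j, ∃ G : E n → ℂ, DifferentiableOn ℂ G (ball 0 1) ∧
      ∀ z : ball (0 : E n) 1, evH z (g j) = G z := by
    intro j
    obtain ⟨G, hG1, hG2⟩ := (g j).2
    exact ⟨G, hG1, hG2⟩
  choose G hG1 hG2 using hrep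
  refine ⟨G, fun j => ⟨hG1 j, ‖g j‖, fun z hz => ?_⟩, fun z hz => ?_⟩
  · rw [← hG2 j ⟨z, hz⟩]
    exact evH_le _ _
  · have h1 := congrArg (evH ⟨z, hz⟩) hg
    rw [map_sum, map_one] at h1
    rw [← h1]
    refine Finset.sum_congr rfl fun j _ => ?_
    rw [map_mul, hG2 j ⟨z, hz⟩]
    rfl

end Pool.Agent.K9h23.Din
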