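import Mathlib
import Pool.Agent.K9h23.Din.Alg2
import Pool.Agent.K9h23.Big.Alg3

/-!
The closed algebra generated by the ball algebra and functions with square summable dyadic pieces.
-/

set_option autoImplicit false

open Metric Set Filter Topology Complex

namespace Pool.Agent.K9h23.Din

open Pool.Agent.K9h23.Hom (E)
open Pool.Agent.K9h23.Qc (BH adj_BH)

open Pool.Agent.K9h23.Big (BA BA_BH tend_mul)

variable {n : ℕ}

theorem gen_BH {q : E n → ℂ} (hq : q ∈ BA n ∪ {q : E n → ℂ | InD q}) : BH q := by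
  rcases hq with hq | hq
  · exact BA_BH hq
  · exact hq.1

/-- near a boundary point the elements of the ball algebra are constants -/
theorem near_const {p : E n} (hp : ‖p‖ = 1) {v : E n → ℂ}
    (hv : v ∈ Algebra.adjoin ℂ (BA n ∪ {q : E n → ℂ | InD q})) :
    ∃ v' ∈ Algebra.adjoin ℂ {q : E n → ℂ | InD q},
      Tendsto (fun z => v z - v' z) (𝓝[ball 0 1] p) (𝓝 0) := by
  have hpc : p ∈ closedBall (0 : E n) 1 := by rw [mem_closedBall_zero_iff, hp]
  induction hv using Algebra.adjoin_induction with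
  | mem x hx =>
    rcases hx with hx | hx
    · refine ⟨algebraMap ℂ _ (x p), Subalgebra.algebraMap_mem _ _, ?_⟩
      have h1 : Tendsto x (𝓝[ball 0 1] p) (𝓝 (x p)) := (hx.1 p hpc).mono ball_subset_closedBall
      have h2 := h1.sub (tendsto_const_nhds (x := x p))
      rwa [sub_self] at h2
    · refine ⟨x, Algebra.subset_adjoin hx, ?_⟩
      simp only [sub_self]
      exact tendsto_const_nhds
  | algebraMap r =>
    refine ⟨algebraMap ℂ _ r, Subalgebra.algebraMap_mem _ r, ?_⟩
    simp only [sub_self]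
    exact tendsto_const_nhds
  | add x y _ _ hx hy =>
    obtain ⟨x', h1, h2⟩ := hx
    obtain ⟨y', h3, h4⟩ := hy
    refine ⟨x' + y', Subalgebra.add_mem _ h1 h3, ?_⟩
    have h5 := h2.add h4
    rw [add_zero] at h5
    refine h5.congr fun z => ?_
    rw [Pi.add_apply, Pi.add_apply]
    ring
  | mul x y hx0 hy0 hx hy =>
    obtain ⟨x', h1, h2⟩ := hx
    obtain ⟨y', h3, h4⟩ := hy
    refine ⟨x' * y', Subalgebra.mul_mem _ h1 h3, ?_⟩
    obtain ⟨-, M, hM⟩ := adj_BH (fun q hq => gen_BH hq) hy0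
    obtain ⟨-, M', hM'⟩ := adj_BH (T := {q : E n → ℂ | InD q}) (fun q hq => hq.1) h1
    have h5 := tend_mul h2 (y := y) (M := M) (by
      filter_upwards [self_mem_nhdsWithin] with z hz
      exact hM z hz)
    have h6 := tend_mul h4 (y := x') (M := M') (by
      filter_upwards [self_mem_nhdsWithin] with z hz
      exact hM' z hz)
    have h7 := h5.add h6
    rw [add_zero] at h7
    refine h7.congr fun z => ?_
    rw [Pi.mul_apply, Pi.mul_apply]
    ring

/-- **The closed algebra.** -/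
theorem closed2 {N : ℕ} (f : Fin N → E n → ℂ) (δ : ℝ)
    (hfd : ∀ j, DifferentiableOn ℂ (f j) (ball 0 1))
    (hf : ∀ j, ∀ ε : ℝ, 0 < ε → ∃ v ∈ Algebra.adjoin ℂ (BA n ∪ {q : E n → ℂ | InD q}),
        ∀ z ∈ ball (0 : E n) 1, ‖f j z - v z‖ ≤ ε)
    (hδ : 0 < δ) (hlow : ∀ z ∈ ball (0 : E n) 1, δ ≤ ∑ j, ‖f j z‖) :
    ∃ g : Fin N → E n → ℂ, (∀ j, BH (g j)) ∧
      ∀ z ∈ ball (0 : E n) 1, ∑ j, f j z * g j z = 1 := by
  refine criterion2 f (fun j => ⟨hfd j, ?_⟩) (fun z hz => ?_) (fun p hp => ?_)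
  · obtain ⟨v, hv, hv2⟩ := hf j 1 one_pos
    obtain ⟨-, M, hM⟩ := adj_BH (fun q hq => gen_BH hq) hv
    refine ⟨1 + M, fun z hz => ?_⟩
    have e : f j z = (f j z - v z) + v z := by ring
    rw [e]
    exact (norm_add_le _ _).trans (add_le_add (hv2 z hz) (hM z hz))
  · by_contra hcon
    push Not at hcon
    have := hlow z hz
    simp only [hcon, norm_zero, Finset.sum_const_zero] at this
    linarith
  · refine ⟨Finset.univ, δ, hδ, ?_, fun ε hε j _ => ?_⟩
    · filter_upwards [self_mem_nhdsWithin] with z hz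
      exact hlow z hz
    · obtain ⟨v, hv, hv2⟩ := hf j (ε / 2) (by positivity)
      obtain ⟨v', hv', h1⟩ := near_const hp hv
      refine ⟨v', hv', ?_⟩
      have h2 : ∀ᶠ z in 𝓝[ball 0 1] p, ‖v z - v' z‖ < ε / 2 := by
        have h3 := h1.norm
        rw [norm_zero] at h3
        exact h3.eventually (gt_mem_nhds (by positivity))
      filter_upwards [self_mem_nhdsWithin, h2] with z hz hz2
      have e : f j z - v' z = (f j z - v z) + (v z - v' z) := by ring
      rw [e]
      refine (norm_add_le _ _).trans ?_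
      have := hv2 z hz
      linarith

end Pool.Agent.K9h23.Din
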